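import Mathlib

set_option autoImplicit false

open MeasureTheory
open scoped ENNReal NNReal

namespace Pool.Agent.Lib.MP_01c081_pr

/-- Configurations of points of `ℤ²`: `ω x = true` means that `x` is a point of the process.
The σ-algebra is the product σ-algebra. -/
abbrev Conf : Type := ℤ × ℤ → Bool

/-- The shift `θ_x`. -/
def shift (x : ℤ × ℤ) (ω : Conf) : Conf := fun y => ω (x + y)

/-- The four unit vectors `e₁, -e₁, e₂, -e₂`. -/
def dir : Fin 4 → ℤ × ℤ := ![(1, 0), (-1, 0), (0, 1), (0, -1)]

/-- `f_e(ω) = min {k > 0 : ω (k e) = 1}`. -/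
noncomputable def gap (e : ℤ × ℤ) (ω : Conf) : ℕ := sInf {k : ℕ | 0 < k ∧ ω ((k : ℤ) • e) = true}

/-- Two-dimensional discrete point processes: probability measures on the configurations that are
stationary and ergodic for each of the two coordinate shifts and do not charge only the empty
configuration. -/
structure IsPointProcess (Q : Measure Conf) : Prop where
  isProbabilityMeasure : IsProbabilityMeasure Q
  ergodic_fst : Ergodic (shift (1, 0)) Q
  ergodic_snd : Ergodic (shift (0, 1)) Q
  nonempty : Q {ω | ∀ x, ω x = false} < 1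

/-- The event `Ω₀` that the origin is a point of the process. -/
def origin : Set Conf := {ω | ω 0 = true}

/-- `P = Q(· | Ω₀)`. -/
noncomputable def palm (Q : Measure Conf) : Measure Conf := ProbabilityTheory.cond Q origin

/-- The walk started at the origin in the environment `ω`, where `ξ n` is the direction chosen at
time `n`: from a point it moves to the nearest point of the process in the chosen direction. -/
noncomputable def walk (ω : Conf) (ξ : ℕ → Fin 4) : ℕ → ℤ × ℤ
  | 0 => 0
  | n + 1 => walk ω ξ n + (gap (dir (ξ n)) (shift (walk ω ξ n) ω) : ℤ) • dir (ξ n)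

/-- The walk is recurrent: for `P`-almost every environment, for almost every sequence of
independent uniform directions, the walk returns to the origin. -/
def Recurrent (Q : Measure Conf) : Prop :=
  ∀ᵐ ω ∂(palm Q),
    ∀ᵐ ξ ∂(Measure.infinitePi (fun _ : ℕ => ProbabilityTheory.uniformOn (Set.univ : Set (Fin 4)))),
      ∃ n, 1 ≤ n ∧ walk ω ξ n = 0

/-- The tail condition (T) in the coordinate direction `e`, with constant `C`, at level `N`. -/
def TailBound (Q : Measure Conf) (C : ℝ≥0) (e : ℤ × ℤ) (N : ℕ) : Prop :=
  (∑' k : ℕ, if N ≤ k then (k : ℝ≥0∞) * palm Q {ω | gap e ω = k} else 0) /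
    (∫⁻ ω, (gap e ω : ℝ≥0∞) ∂(palm Q)) ≤ C / N

/-- Condition (T). -/
def CondT (Q : Measure Conf) : Prop :=
  ∃ C : ℝ≥0, 0 < C ∧ ∀ N : ℕ, 1 ≤ N → TailBound Q C (1, 0) N ∧ TailBound Q C (0, 1) N

end Pool.Agent.Lib.MP_01c081_pr
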