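import Mathlib

set_option autoImplicit false
set_option linter.unusedSectionVars false
set_option linter.unusedSimpArgs false

open Filter Topology Finset

namespace Pool.Agent.Lib.MP_01c081_pr

section Green

variable {V : Type*} [DecidableEq V]

/-- averaging operator of the walk that applies one of `σ, σ⁻¹, τ, τ⁻¹` -/
noncomputable def avg (σ τ : V ≃ V) (f : V → ℝ) (v : V) : ℝ :=
  (f (σ v) + f (σ.symm v) + f (τ v) + f (τ.symm v)) / 4

/-- `n`-step transition probabilities from `o` -/
noncomputable def pn (σ τ : V ≃ V) (o : V) : ℕ → V → ℝ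
  | 0 => Pi.single o 1
  | n + 1 => avg σ τ (pn σ τ o n)

variable (σ τ : V ≃ V) (o : V)

lemma hfs_comp_equiv {f : V → ℝ} (hf : Function.HasFiniteSupport f) (e : V ≃ V) :
    Function.HasFiniteSupport (fun v => f (e v)) := by
  have : (Function.support fun v => f (e v)) = e ⁻¹' (Function.support f) := by
    ext v; simp
  unfold Function.HasFiniteSupport at *
  rw [this]
  exact hf.preimage e.injective.injOn

lemma hfs_avg {f : V → ℝ} (hf : Function.HasFiniteSupport f) :
    Function.HasFiniteSupport (avg σ τ f) := by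
  have h1 := hfs_comp_equiv hf σ
  have h2 := hfs_comp_equiv hf σ.symm
  have h3 := hfs_comp_equiv hf τ
  have h4 := hfs_comp_equiv hf τ.symm
  unfold Function.HasFiniteSupport at *
  refine ((((h1.union h2).union h3).union h4)).subset ?_
  intro v hv
  simp only [Set.mem_union, Function.mem_support]
  by_contra hc
  push Not at hc
  obtain ⟨⟨⟨a, b⟩, c⟩, d⟩ := hc
  apply hv
  simp [avg, a, b, c, d]

lemma hfs_pn (n : ℕ) : Function.HasFiniteSupport (pn σ τ o n) := by
  induction n with
  | zero =>
    unfold Function.HasFiniteSupport pn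
    refine (Set.finite_singleton o).subset ?_
    intro v hv
    by_contra hc
    apply hv
    simp only [Set.mem_singleton_iff] at hc
    simp [Pi.single_apply, hc]
  | succ n ih => exact hfs_avg σ τ ih

lemma pn_nonneg (n : ℕ) (v : V) : 0 ≤ pn σ τ o n v := by
  induction n generalizing v with
  | zero => simp only [pn, Pi.single_apply]; split_ifs <;> norm_num
  | succ n ih =>
    simp only [pn, avg]
    have := ih (σ v); have := ih (σ.symm v); have := ih (τ v); have := ih (τ.symm v)
    positivity

/-- inner product -/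
noncomputable def ip (f g : V → ℝ) : ℝ := ∑' v, f v * g v

lemma hfs_mul {f g : V → ℝ} (hf : Function.HasFiniteSupport f) :
    Function.HasFiniteSupport (fun v => f v * g v) := by
  unfold Function.HasFiniteSupport at *
  refine hf.subset ?_
  intro v hv hc
  apply hv
  simp [hc]

lemma hfs_mul' {f g : V → ℝ} (hg : Function.HasFiniteSupport g) :
    Function.HasFiniteSupport (fun v => f v * g v) := by
  unfold Function.HasFiniteSupport at *
  refine hg.subset ?_
  intro v hv hc
  apply hv
  simp [hc]

lemma ip_comp (f g : V → ℝ) (e : V ≃ V) :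
    ∑' v, f v * g (e v) = ∑' v, f (e.symm v) * g v := by
  rw [← Equiv.tsum_eq e (fun v => f (e.symm v) * g v)]
  simp

lemma ip_avg {f g : V → ℝ} (hf : Function.HasFiniteSupport f)
    (hg : Function.HasFiniteSupport g) :
    ip f (avg σ τ g) = ip (avg σ τ f) g := by
  have key : ∀ e : V ≃ V, Summable (fun v => f v * g (e v)) := fun e =>
    summable_of_hasFiniteSupport (hfs_mul hf)
  have key2 : ∀ e : V ≃ V, Summable (fun v => f (e v) * g v) := fun e =>
    summable_of_hasFiniteSupport (hfs_mul' hg)
  unfold ip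
  have e1 : ∀ v, f v * avg σ τ g v = (f v * g (σ v) + f v * g (σ.symm v) + f v * g (τ v)
      + f v * g (τ.symm v)) / 4 := by intro v; unfold avg; ring
  have e2 : ∀ v, avg σ τ f v * g v = (f (σ v) * g v + f (σ.symm v) * g v + f (τ v) * g v
      + f (τ.symm v) * g v) / 4 := by intro v; unfold avg; ring
  simp_rw [e1, e2]
  rw [tsum_div_const, tsum_div_const]
  rw [Summable.tsum_add (((key σ).add (key σ.symm)).add (key τ)) (key τ.symm),
    Summable.tsum_add ((key σ).add (key σ.symm)) (key τ),
    Summable.tsum_add (key σ) (key σ.symm)]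
  rw [Summable.tsum_add (((key2 σ).add (key2 σ.symm)).add (key2 τ)) (key2 τ.symm),
    Summable.tsum_add ((key2 σ).add (key2 σ.symm)) (key2 τ),
    Summable.tsum_add (key2 σ) (key2 σ.symm)]
  rw [ip_comp f g σ, ip_comp f g σ.symm, ip_comp f g τ, ip_comp f g τ.symm]
  simp only [Equiv.symm_symm]
  ring

lemma ip_single (g : V → ℝ) : ip (Pi.single o 1) g = g o := by
  unfold ip
  rw [tsum_eq_single o]
  · simp
  · intro v hv; simp [Pi.single_apply, hv]

lemma ip_pn (m n : ℕ) : ip (pn σ τ o m) (pn σ τ o n) = pn σ τ o (m + n) o := by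
  induction m generalizing n with
  | zero => simp only [pn, zero_add]; exact ip_single o _
  | succ m ih =>
    have : ip (pn σ τ o (m + 1)) (pn σ τ o n) = ip (pn σ τ o m) (pn σ τ o (n + 1)) := by
      simp only [pn]
      exact (ip_avg σ τ (hfs_pn σ τ o m) (hfs_pn σ τ o n)).symm
    rw [this, ih]
    congr 1
    ring

/-- energy form -/
noncomputable def en (f g : V → ℝ) : ℝ :=
  ∑' v, ((f v - f (σ v)) * (g v - g (σ v)) + (f v - f (τ v)) * (g v - g (τ v)))

lemma hfs_sub_comp {f : V → ℝ} (hf : Function.HasFiniteSupport f) (e : V ≃ V) :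
    Function.HasFiniteSupport (fun v => f v - f (e v)) := by
  have h1 := hfs_comp_equiv hf e
  unfold Function.HasFiniteSupport at *
  refine (hf.union h1).subset ?_
  intro v hv
  simp only [Set.mem_union, Function.mem_support]
  by_contra hc
  push Not at hc
  apply hv
  simp [hc.1, hc.2]

lemma en_eq {f g : V → ℝ} (hf : Function.HasFiniteSupport f)
    (hg : Function.HasFiniteSupport g) :
    en σ τ f g = 4 * (ip f g - ip f (avg σ τ g)) := by
  have k0 : Summable (fun v => f v * g v) := summable_of_hasFiniteSupport (hfs_mul hf)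
  have key : ∀ e : V ≃ V, Summable (fun v => f v * g (e v)) := fun e =>
    summable_of_hasFiniteSupport (hfs_mul hf)
  have key2 : ∀ e : V ≃ V, Summable (fun v => f (e v) * g v) := fun e =>
    summable_of_hasFiniteSupport (hfs_mul' hg)
  have key3 : ∀ e : V ≃ V, Summable (fun v => f (e v) * g (e v)) := fun e =>
    summable_of_hasFiniteSupport (hfs_mul (hfs_comp_equiv hf e))
  have one : ∀ e : V ≃ V, ∑' v, (f v - f (e v)) * (g v - g (e v)) =
      2 * (∑' v, f v * g v) - (∑' v, f v * g (e v)) - (∑' v, f v * g (e.symm v)) := by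
    intro e
    have e1 : ∀ v, (f v - f (e v)) * (g v - g (e v)) =
        f v * g v + f (e v) * g (e v) - f v * g (e v) - f (e v) * g v := by intro v; ring
    simp_rw [e1]
    rw [Summable.tsum_sub ((k0.add (key3 e)).sub (key e)) (key2 e),
      Summable.tsum_sub (k0.add (key3 e)) (key e), Summable.tsum_add k0 (key3 e)]
    rw [Equiv.tsum_eq e (fun v => f v * g v)]
    rw [ip_comp f g e.symm]
    simp only [Equiv.symm_symm]
    ring
  have s1 : ∀ e : V ≃ V, Summable (fun v => (f v - f (e v)) * (g v - g (e v))) := fun e =>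
    summable_of_hasFiniteSupport (hfs_mul (hfs_sub_comp hf e))
  unfold en
  rw [Summable.tsum_add (s1 σ) (s1 τ), one σ, one τ]
  have e1 : ∀ v, f v * avg σ τ g v = (f v * g (σ v) + f v * g (σ.symm v) + f v * g (τ v)
      + f v * g (τ.symm v)) / 4 := by intro v; unfold avg; ring
  unfold ip
  simp_rw [e1]
  rw [tsum_div_const]
  rw [Summable.tsum_add (((key σ).add (key σ.symm)).add (key τ)) (key τ.symm),
    Summable.tsum_add ((key σ).add (key σ.symm)) (key τ),
    Summable.tsum_add (key σ) (key σ.symm)]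
  ring

lemma en_cs {f g : V → ℝ} (hf : Function.HasFiniteSupport f)
    (hg : Function.HasFiniteSupport g) {c : ℝ} (hc : 0 < c) :
    en σ τ f g ≤ (c * en σ τ f f + c⁻¹ * en σ τ g g) / 2 := by
  have s1 : ∀ (f g : V → ℝ) (_ : Function.HasFiniteSupport f) (_ : Function.HasFiniteSupport g),
      Summable (fun v => (f v - f (σ v)) * (g v - g (σ v)) + (f v - f (τ v)) * (g v - g (τ v))) :=
    fun f g hf hg =>
    (summable_of_hasFiniteSupport (hfs_mul (hfs_sub_comp hf σ))).add
      (summable_of_hasFiniteSupport (hfs_mul (hfs_sub_comp hf τ)))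
  unfold en
  rw [← tsum_mul_left, ← tsum_mul_left, ← Summable.tsum_add ((s1 f f hf hf).mul_left c)
    ((s1 g g hg hg).mul_left c⁻¹), ← tsum_div_const]
  refine Summable.tsum_le_tsum ?_ (s1 f g hf hg)
    ((((s1 f f hf hf).mul_left c).add ((s1 g g hg hg).mul_left c⁻¹)).div_const 2)
  intro v
  have amgm : ∀ a b : ℝ, a * b ≤ (c * (a * a) + c⁻¹ * (b * b)) / 2 := by
    intro a b
    have h : 0 ≤ c⁻¹ * (c * a - b) ^ 2 := by positivity
    have h2 : c⁻¹ * (c * a - b) ^ 2 = c * (a * a) - 2 * (a * b) + c⁻¹ * (b * b) := by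
      field_simp
      ring
    linarith
  have h1 := amgm (f v - f (σ v)) (g v - g (σ v))
  have h2 := amgm (f v - f (τ v)) (g v - g (τ v))
  linarith

/-- truncated Green function -/
noncomputable def gn (n : ℕ) (v : V) : ℝ := ∑ k ∈ range (n + 1), pn σ τ o k v

lemma hfs_gn (n : ℕ) : Function.HasFiniteSupport (gn σ τ o n) := by
  induction n with
  | zero =>
    have : gn σ τ o 0 = pn σ τ o 0 := by ext v; simp [gn]
    rw [this]; exact hfs_pn σ τ o 0
  | succ n ih =>
    have h2 := hfs_pn σ τ o (n + 1)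
    unfold Function.HasFiniteSupport at *
    refine (ih.union h2).subset ?_
    intro v hv
    simp only [Set.mem_union, Function.mem_support]
    by_contra hc
    push Not at hc
    apply hv
    simp only [gn] at hc ⊢
    rw [sum_range_succ, hc.1, hc.2, add_zero]

lemma avg_gn (n : ℕ) (v : V) :
    gn σ τ o n v - avg σ τ (gn σ τ o n) v = pn σ τ o 0 v - pn σ τ o (n + 1) v := by
  have : avg σ τ (gn σ τ o n) v = ∑ k ∈ range (n + 1), pn σ τ o (k + 1) v := by
    simp only [avg, gn, pn]
    rw [← sum_add_distrib, ← sum_add_distrib, ← sum_add_distrib, sum_div]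
  rw [this]
  unfold gn
  rw [Finset.sum_range_succ' (fun k => pn σ τ o k v) n, sum_range_succ (fun k => pn σ τ o (k+1) v) n]
  ring

lemma gn_nonneg (n : ℕ) (v : V) : 0 ≤ gn σ τ o n v :=
  sum_nonneg fun k _ => pn_nonneg σ τ o k v

lemma ip_sub {f g h : V → ℝ} (hf : Function.HasFiniteSupport f) :
    ip f g - ip f h = ∑' v, f v * (g v - h v) := by
  unfold ip
  rw [← Summable.tsum_sub (summable_of_hasFiniteSupport (hfs_mul hf))
    (summable_of_hasFiniteSupport (hfs_mul hf))]
  congr 1
  ext v
  ring

lemma ip_nonneg {f g : V → ℝ} (hf : ∀ v, 0 ≤ f v) (hg : ∀ v, 0 ≤ g v) : 0 ≤ ip f g :=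
  tsum_nonneg fun v => mul_nonneg (hf v) (hg v)

lemma en_gn {f : V → ℝ} (hf : Function.HasFiniteSupport f) (n : ℕ) :
    en σ τ f (gn σ τ o n) = 4 * (f o - ip f (pn σ τ o (n + 1))) := by
  rw [en_eq σ τ hf (hfs_gn σ τ o n), ip_sub hf]
  have : ∀ v, f v * (gn σ τ o n v - avg σ τ (gn σ τ o n) v) =
      f v * (pn σ τ o 0 v - pn σ τ o (n + 1) v) := by
    intro v; rw [avg_gn]
  simp_rw [this]
  rw [← ip_sub hf]
  congr 2
  unfold ip
  rw [tsum_eq_single o]
  · simp [pn]
  · intro v hv; simp [pn, Pi.single_apply, hv]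

lemma en_gn_gn_le (n : ℕ) : en σ τ (gn σ τ o n) (gn σ τ o n) ≤ 4 * gn σ τ o n o := by
  rw [en_gn σ τ o (hfs_gn σ τ o n) n]
  have := ip_nonneg (gn_nonneg σ τ o n) (pn_nonneg σ τ o (n + 1))
  linarith

/-- If finitely supported functions with value one at `o` have arbitrarily small energy, then the
Green function at `o` is infinite. -/
theorem green_unbounded
    (H : ∀ ε > 0, ∃ h : V → ℝ, Function.HasFiniteSupport h ∧ h o = 1 ∧ en σ τ h h ≤ ε)
    (C : ℝ) : ∃ n, C < gn σ τ o n o := by
  by_contra hcon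
  push Not at hcon
  have hC0 : 0 < C := by
    have h1 := hcon 0
    have : gn σ τ o 0 o = 1 := by simp [gn, pn]
    linarith
  -- summability
  have hsum : Summable (fun k => pn σ τ o k o) := by
    refine summable_of_sum_range_le (c := C) (fun k => pn_nonneg σ τ o k o) ?_
    intro n
    rcases n with _ | n
    · simpa using hC0.le
    · exact hcon n
  have ht : Tendsto (fun k => pn σ τ o k o) atTop (𝓝 0) := hsum.tendsto_atTop_zero
  have hsq : ∀ n v, (pn σ τ o n v) ^ 2 ≤ pn σ τ o (2 * n) o := by
    intro n v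
    have h1 := ip_pn σ τ o n n
    rw [two_mul, ← h1]
    unfold ip
    have hs : Summable (fun v => pn σ τ o n v * pn σ τ o n v) :=
      summable_of_hasFiniteSupport (hfs_mul (hfs_pn σ τ o n))
    have := hs.le_tsum v (fun w _ => mul_self_nonneg _)
    rw [sq]
    exact this
  have hpv : ∀ v, Tendsto (fun n => pn σ τ o n v) atTop (𝓝 0) := by
    intro v
    have h2 : Tendsto (fun n => pn σ τ o (2 * n) o) atTop (𝓝 0) :=
      ht.comp (tendsto_id.const_mul_atTop' (by norm_num : 0 < 2))
    have h3 : Tendsto (fun n => (pn σ τ o n v) ^ 2) atTop (𝓝 0) :=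
      squeeze_zero (fun n => sq_nonneg _) (fun n => hsq n v) h2
    have h4 : Tendsto (fun n => Real.sqrt ((pn σ τ o n v) ^ 2)) atTop (𝓝 (Real.sqrt 0)) :=
      (Real.continuous_sqrt.tendsto 0).comp h3
    rw [Real.sqrt_zero] at h4
    refine h4.congr (fun n => ?_)
    rw [Real.sqrt_sq (pn_nonneg σ τ o n v)]
  obtain ⟨h, hh, ho, he⟩ := H (1 / C) (by positivity)
  have hip : Tendsto (fun n => ip h (pn σ τ o n)) atTop (𝓝 0) := by
    have e1 : ∀ n, ip h (pn σ τ o n) = ∑ v ∈ hh.toFinset, h v * pn σ τ o n v := by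
      intro n
      unfold ip
      rw [tsum_eq_sum]
      intro v hv
      have hv : h v = 0 := by
        by_contra hc
        exact hv ((Set.Finite.mem_toFinset hh).2 hc)
      simp [hv]
    rw [show (fun n => ip h (pn σ τ o n)) = fun n => ∑ v ∈ hh.toFinset, h v * pn σ τ o n v
      from funext e1]
    have : Tendsto (fun n => ∑ v ∈ hh.toFinset, h v * pn σ τ o n v) atTop
        (𝓝 (∑ v ∈ hh.toFinset, h v * 0)) :=
      tendsto_finsetSum _ fun v _ => (hpv v).const_mul (h v)
    simpa using this
  have hb : ∀ n, 4 * (1 - ip h (pn σ τ o (n + 1))) ≤ 2 := by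
    intro n
    have h1 := en_gn σ τ o hh n
    rw [ho] at h1
    rw [← h1]
    have h2 := en_cs σ τ hh (hfs_gn σ τ o n) (c := 2 * C) (by positivity)
    have h3 := en_gn_gn_le σ τ o n
    have h4 := hcon n
    have h5 : (2 * C) * en σ τ h h ≤ 2 := by
      calc (2 * C) * en σ τ h h ≤ (2 * C) * (1 / C) := by
            apply mul_le_mul_of_nonneg_left he (by positivity)
        _ = 2 := by field_simp
    have h6 : (2 * C)⁻¹ * en σ τ (gn σ τ o n) (gn σ τ o n) ≤ 2 := by
      calc (2 * C)⁻¹ * en σ τ (gn σ τ o n) (gn σ τ o n) ≤ (2 * C)⁻¹ * (4 * C) := by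
            apply mul_le_mul_of_nonneg_left _ (by positivity)
            linarith
        _ = 2 := by field_simp; norm_num
    linarith
  have hlim : Tendsto (fun n => 4 * (1 - ip h (pn σ τ o (n + 1)))) atTop (𝓝 (4 * (1 - 0))) :=
    ((tendsto_const_nhds.sub (hip.comp (tendsto_add_atTop_nat 1))).const_mul 4)
  have := le_of_tendsto' hlim hb
  norm_num at this

/-- probability, from `v`, of being at `o` at one of the times `0, …, n` -/
noncomputable def hn : ℕ → V → ℝ
  | 0 => Pi.single o 1
  | n + 1 => fun v => if v = o then 1 else avg σ τ (hn n) v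

/-- probability, from `o`, of not returning to `o` during the times `1, …, n` -/
noncomputable def qn : ℕ → ℝ
  | 0 => 1
  | n + 1 => 1 - avg σ τ (hn σ τ o n) o

lemma hn_self (n : ℕ) : hn σ τ o n o = 1 := by
  cases n <;> simp [hn]

lemma avg_mono {f g : V → ℝ} (hfg : ∀ v, f v ≤ g v) (v : V) : avg σ τ f v ≤ avg σ τ g v := by
  unfold avg
  have := hfg (σ v); have := hfg (σ.symm v); have := hfg (τ v); have := hfg (τ.symm v)
  linarith

lemma hn_nonneg (n : ℕ) (v : V) : 0 ≤ hn σ τ o n v := by
  induction n generalizing v with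
  | zero => simp only [hn, Pi.single_apply]; split_ifs <;> norm_num
  | succ n ih =>
    simp only [hn]
    split_ifs
    · norm_num
    · unfold avg
      have := ih (σ v); have := ih (σ.symm v); have := ih (τ v); have := ih (τ.symm v)
      positivity

lemma hn_le_one (n : ℕ) (v : V) : hn σ τ o n v ≤ 1 := by
  induction n generalizing v with
  | zero => simp only [hn, Pi.single_apply]; split_ifs <;> norm_num
  | succ n ih =>
    simp only [hn]
    split_ifs
    · norm_num
    · unfold avg
      have := ih (σ v); have := ih (σ.symm v); have := ih (τ v); have := ih (τ.symm v)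
      linarith

lemma hn_mono (n : ℕ) (v : V) : hn σ τ o n v ≤ hn σ τ o (n + 1) v := by
  induction n generalizing v with
  | zero =>
    simp only [hn, Pi.single_apply]
    split_ifs
    · norm_num
    · unfold avg
      have h := hn_nonneg σ τ o 0
      simp only [hn] at h
      have := h (σ v); have := h (σ.symm v); have := h (τ v); have := h (τ.symm v)
      positivity
  | succ n ih =>
    rw [hn, hn]
    beta_reduce
    split_ifs
    · exact le_rfl
    · exact avg_mono σ τ ih v

lemma qn_antitone : Antitone (qn σ τ o) := by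
  refine antitone_nat_of_succ_le ?_
  intro n
  rcases n with _ | n
  · simp only [qn]
    have h := hn_nonneg σ τ o 0
    have : 0 ≤ avg σ τ (hn σ τ o 0) o := by
      unfold avg
      have := h (σ o); have := h (σ.symm o); have := h (τ o); have := h (τ.symm o)
      positivity
    linarith
  · simp only [qn]
    have := avg_mono σ τ (hn_mono σ τ o n) o
    linarith

lemma qn_nonneg (n : ℕ) : 0 ≤ qn σ τ o n := by
  rcases n with _ | n
  · simp [qn]
  · simp only [qn]
    have h := hn_le_one σ τ o n
    have : avg σ τ (hn σ τ o n) o ≤ 1 := by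
      unfold avg
      have := h (σ o); have := h (σ.symm o); have := h (τ o); have := h (τ.symm o)
      linarith
    linarith

lemma renewal (n : ℕ) (v : V) :
    ∑ k ∈ range (n + 1), pn σ τ o k v * qn σ τ o (n - k) = hn σ τ o n v := by
  induction n generalizing v with
  | zero => simp [pn, qn, hn]
  | succ n ih =>
    rw [Finset.sum_range_succ']
    have e1 : ∀ k ∈ range (n + 1), pn σ τ o (k + 1) v * qn σ τ o (n + 1 - (k + 1)) =
        (pn σ τ o k (σ v) * qn σ τ o (n - k) + pn σ τ o k (σ.symm v) * qn σ τ o (n - k)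
        + pn σ τ o k (τ v) * qn σ τ o (n - k) + pn σ τ o k (τ.symm v) * qn σ τ o (n - k)) / 4 := by
      intro k _
      have : n + 1 - (k + 1) = n - k := by omega
      rw [this]
      simp only [pn, avg]
      ring
    rw [sum_congr rfl e1, ← sum_div, sum_add_distrib, sum_add_distrib, sum_add_distrib, ih, ih, ih,
      ih]
    have e2 : (hn σ τ o n (σ v) + hn σ τ o n (σ.symm v) + hn σ τ o n (τ v)
        + hn σ τ o n (τ.symm v)) / 4 = avg σ τ (hn σ τ o n) v := rfl
    rw [e2]
    simp only [hn, tsub_zero]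
    by_cases hv : v = o
    · subst hv
      simp [pn, qn]
    · simp [pn, hv, Pi.single_apply]

lemma green_mul_qn_le (n : ℕ) : gn σ τ o n o * qn σ τ o n ≤ 1 := by
  have h1 := renewal σ τ o n o
  rw [hn_self] at h1
  rw [← h1]
  unfold gn
  rw [sum_mul]
  refine sum_le_sum ?_
  intro k _
  exact mul_le_mul_of_nonneg_left (qn_antitone σ τ o (Nat.sub_le n k)) (pn_nonneg σ τ o k o)

theorem qn_tendsto_zero
    (H : ∀ ε > 0, ∃ h : V → ℝ, Function.HasFiniteSupport h ∧ h o = 1 ∧ en σ τ h h ≤ ε) :
    Tendsto (qn σ τ o) atTop (𝓝 0) := by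
  rw [Metric.tendsto_atTop]
  intro ε hε
  obtain ⟨N, hN⟩ := green_unbounded σ τ o H (1 / ε)
  refine ⟨N, fun n hn => ?_⟩
  rw [Real.dist_eq, sub_zero, abs_of_nonneg (qn_nonneg σ τ o n)]
  refine lt_of_le_of_lt (qn_antitone σ τ o hn) ?_
  have h1 := green_mul_qn_le σ τ o N
  have h0 : 0 < 1 / ε := by positivity
  by_contra hc
  push Not at hc
  have : 1 / ε * ε < gn σ τ o N o * qn σ τ o N := by
    calc 1 / ε * ε < gn σ τ o N o * ε := mul_lt_mul_of_pos_right hN hε
      _ ≤ gn σ τ o N o * qn σ τ o N := mul_le_mul_of_nonneg_left hc (gn_nonneg σ τ o N o)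
  have h2 : 1 / ε * ε = 1 := by field_simp
  linarith

end Green

end Pool.Agent.Lib.MP_01c081_pr
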