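import Mathlib
import Pool.Agent.Lib.MP_01c081_pr.Green

set_option autoImplicit false
set_option linter.unusedSectionVars false
set_option linter.unusedSimpArgs false

open Filter Topology Finset MeasureTheory
open scoped ENNReal

namespace Pool.Agent.Lib.MP_01c081_pr

/-- law of an i.i.d. sequence of uniformly chosen directions -/
noncomputable def stepLaw : Measure (ℕ → Fin 4) :=
  Measure.infinitePi (fun _ : ℕ => ProbabilityTheory.uniformOn (Set.univ : Set (Fin 4)))

instance : IsProbabilityMeasure (ProbabilityTheory.uniformOn (Set.univ : Set (Fin 4))) :=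
  ProbabilityTheory.isProbabilityMeasure_uniformOn Set.finite_univ Set.univ_nonempty

instance : IsProbabilityMeasure stepLaw := by unfold stepLaw; infer_instance

/-- prepend a direction -/
def consSeq (d : Fin 4) (ξ : ℕ → Fin 4) : ℕ → Fin 4
  | 0 => d
  | n + 1 => ξ n

lemma measurable_consSeq : Measurable (fun p : Fin 4 × (ℕ → Fin 4) => consSeq p.1 p.2) := by
  refine measurable_pi_lambda _ ?_
  intro n
  cases n with
  | zero => exact measurable_fst
  | succ n => exact (measurable_pi_apply n).comp measurable_snd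

lemma map_cons : ((ProbabilityTheory.uniformOn (Set.univ : Set (Fin 4))).prod stepLaw).map
    (fun p : Fin 4 × (ℕ → Fin 4) => consSeq p.1 p.2) = stepLaw := by
  unfold stepLaw
  refine Measure.eq_infinitePi _ ?_
  intro s t ht
  rw [Measure.map_apply measurable_consSeq (MeasurableSet.pi s.countable_toSet fun i _ => ht i)]
  -- the preimage is a product set
  classical
  set s' : Finset ℕ := (s.filter (fun i => i ≠ 0)).image (fun i => i - 1) with hs'
  have hset : (fun p : Fin 4 × (ℕ → Fin 4) => consSeq p.1 p.2) ⁻¹' ((s : Set ℕ).pi t) =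
      (if 0 ∈ s then t 0 else Set.univ) ×ˢ ((s' : Set ℕ).pi (fun i => t (i + 1))) := by
    ext ⟨d, ξ⟩
    simp only [Set.mem_preimage, Set.mem_pi, Finset.mem_coe, Set.mem_prod, hs', Finset.mem_image,
      Finset.mem_filter]
    constructor
    · intro h
      constructor
      · split_ifs with h0
        · exact h 0 h0
        · trivial
      · rintro i ⟨j, ⟨hj, hj0⟩, rfl⟩
        have := h j hj
        obtain ⟨m, rfl⟩ := Nat.exists_eq_succ_of_ne_zero hj0
        simpa [consSeq] using this
    · rintro ⟨h0, h1⟩ i hi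
      cases i with
      | zero => rw [if_pos hi] at h0; exact h0
      | succ m => exact h1 m ⟨m + 1, ⟨hi, Nat.succ_ne_zero m⟩, by simp⟩
  rw [hset, Measure.prod_prod, Measure.infinitePi_pi _ (fun i _ => ht (i + 1))]
  have hinj : Set.InjOn (fun i : ℕ => i - 1) ((s.filter (fun i => i ≠ 0) : Finset ℕ) : Set ℕ) := by
    intro a ha b hb hab
    simp only [Finset.coe_filter, Set.mem_ofPred_eq] at ha hb hab
    omega
  rw [hs', Finset.prod_image hinj]
  have e1 : ∏ x ∈ s.filter (fun i => i ≠ 0), (ProbabilityTheory.uniformOn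
      (Set.univ : Set (Fin 4))) (t (x - 1 + 1)) = ∏ x ∈ s.filter (fun i => i ≠ 0),
      (ProbabilityTheory.uniformOn (Set.univ : Set (Fin 4))) (t x) := by
    refine Finset.prod_congr rfl ?_
    intro x hx
    rw [Finset.mem_filter] at hx
    congr 2
    omega
  rw [e1]
  by_cases h0 : 0 ∈ s
  · rw [if_pos h0, Finset.filter_ne', Finset.mul_prod_erase s
      (fun i => (ProbabilityTheory.uniformOn (Set.univ : Set (Fin 4))) (t i)) h0]
  · rw [if_neg h0, measure_univ, one_mul, Finset.filter_ne', Finset.erase_eq_of_notMem h0]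

lemma stepLaw_apply {A : Set (ℕ → Fin 4)} (hA : MeasurableSet A) :
    stepLaw A = (∑ d : Fin 4, stepLaw {ξ | consSeq d ξ ∈ A}) / 4 := by
  conv_lhs => rw [← map_cons]
  rw [Measure.map_apply measurable_consSeq hA, Measure.prod_apply (measurable_consSeq hA)]
  rw [lintegral_fintype]
  have : ∀ d : Fin 4, (ProbabilityTheory.uniformOn (Set.univ : Set (Fin 4))) {d} = 4⁻¹ := by
    intro d
    rw [ProbabilityTheory.uniformOn_univ]
    simp
  simp_rw [this]
  rw [← Finset.sum_mul, ENNReal.div_eq_inv_mul, mul_comm]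
  rfl

section walk

variable {V : Type*} [DecidableEq V] [Countable V]

/-- the walk on `V` started at `v` -/
def walkV (step : Fin 4 → V → V) (v : V) (ξ : ℕ → Fin 4) : ℕ → V
  | 0 => v
  | n + 1 => step (ξ n) (walkV step v ξ n)

lemma walkV_cons (step : Fin 4 → V → V) (v : V) (d : Fin 4) (ξ : ℕ → Fin 4) (n : ℕ) :
    walkV step v (consSeq d ξ) (n + 1) = walkV step (step d v) ξ n := by
  induction n with
  | zero => simp [walkV, consSeq]
  | succ n ih =>
    rw [walkV, ih]
    simp [walkV, consSeq]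

lemma measurable_walkV (step : Fin 4 → V → V) (v : V) (n : ℕ) :
    @Measurable _ _ _ ⊤ (fun ξ => walkV step v ξ n) := by
  letI : MeasurableSpace V := ⊤
  haveI : DiscreteMeasurableSpace V := ⟨fun _ => trivial⟩
  induction n with
  | zero => exact measurable_const
  | succ n ih =>
    have h1 : Measurable (fun p : Fin 4 × V => step p.1 p.2) := measurable_of_countable _
    exact h1.comp ((measurable_pi_apply n).prodMk ih)

lemma measurableSet_hit (step : Fin 4 → V → V) (v o : V) (n : ℕ) :
    MeasurableSet {ξ : ℕ → Fin 4 | ∃ k ≤ n, walkV step v ξ k = o} := by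
  have : {ξ : ℕ → Fin 4 | ∃ k ≤ n, walkV step v ξ k = o} =
      ⋃ k ∈ Set.Iic n, {ξ | walkV step v ξ k = o} := by
    ext ξ; simp
  rw [this]
  refine MeasurableSet.biUnion (Set.to_countable _) ?_
  intro k _
  exact measurable_walkV step v k (show @MeasurableSet V ⊤ {o} from trivial)

/-- the four moves given by two permutations -/
def moves (σ τ : V ≃ V) : Fin 4 → V → V := ![σ, σ.symm, τ, τ.symm]

lemma ofReal_avg (σ τ : V ≃ V) {f : V → ℝ} (hf : ∀ v, 0 ≤ f v) (v : V) :
    ENNReal.ofReal (avg σ τ f v) =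
      (∑ d : Fin 4, ENNReal.ofReal (f (moves σ τ d v))) / 4 := by
  unfold avg
  rw [ENNReal.ofReal_div_of_pos (by norm_num)]
  rw [Fin.sum_univ_four]
  simp only [moves, Matrix.cons_val_zero, Matrix.cons_val_one, Matrix.cons_val]
  have h1 := hf (σ v); have h2 := hf (σ.symm v); have h3 := hf (τ v); have h4 := hf (τ.symm v)
  rw [ENNReal.ofReal_add (by positivity) h4, ENNReal.ofReal_add (by positivity) h3,
    ENNReal.ofReal_add h1 h2]
  norm_num

lemma stepLaw_hit (σ τ : V ≃ V) (o : V) (n : ℕ) (v : V) :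
    stepLaw {ξ | ∃ k ≤ n, walkV (moves σ τ) v ξ k = o} = ENNReal.ofReal (hn σ τ o n v) := by
  induction n generalizing v with
  | zero =>
    by_cases hv : v = o
    · have : {ξ : ℕ → Fin 4 | ∃ k ≤ 0, walkV (moves σ τ) v ξ k = o} = Set.univ := by
        ext ξ; simp [walkV, hv]
      rw [this]; simp [hn, hv]
    · have : {ξ : ℕ → Fin 4 | ∃ k ≤ 0, walkV (moves σ τ) v ξ k = o} = ∅ := by
        ext ξ; simp [walkV, hv]
      rw [this]; simp [hn, hv, Pi.single_apply]
  | succ n ih =>
    by_cases hv : v = o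
    · have : {ξ : ℕ → Fin 4 | ∃ k ≤ n + 1, walkV (moves σ τ) v ξ k = o} = Set.univ := by
        ext ξ
        simp only [Set.mem_ofPred_eq, Set.mem_univ, iff_true]
        exact ⟨0, Nat.zero_le _, by simp [walkV, hv]⟩
      rw [this, hv, hn_self]; simp
    · rw [stepLaw_apply (measurableSet_hit _ _ _ _)]
      have : ∀ d : Fin 4, {ξ | consSeq d ξ ∈ {ξ : ℕ → Fin 4 | ∃ k ≤ n + 1,
          walkV (moves σ τ) v ξ k = o}} = {ξ | ∃ k ≤ n, walkV (moves σ τ) (moves σ τ d v) ξ k = o} := by
        intro d
        ext ξ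
        simp only [Set.mem_ofPred_eq]
        constructor
        · rintro ⟨k, hk, hk2⟩
          cases k with
          | zero => exact absurd hk2 hv
          | succ k => exact ⟨k, by omega, by rw [← walkV_cons]; exact hk2⟩
        · rintro ⟨k, hk, hk2⟩
          exact ⟨k + 1, by omega, by rw [walkV_cons]; exact hk2⟩
      simp_rw [this, ih]
      rw [← ofReal_avg σ τ (hn_nonneg σ τ o n)]
      simp [hn, hv]

theorem ae_return (σ τ : V ≃ V) (o : V)
    (H : ∀ ε > 0, ∃ h : V → ℝ, Function.HasFiniteSupport h ∧ h o = 1 ∧ en σ τ h h ≤ ε) :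
    ∀ᵐ ξ ∂stepLaw, ∃ n, 1 ≤ n ∧ walkV (moves σ τ) o ξ n = o := by
  have hq := qn_tendsto_zero σ τ o H
  rw [ae_iff]
  set B := {ξ : ℕ → Fin 4 | ¬ ∃ n, 1 ≤ n ∧ walkV (moves σ τ) o ξ n = o} with hB
  -- B is contained in the no return events
  have hsub : ∀ n, stepLaw B ≤ ENNReal.ofReal (qn σ τ o (n + 1)) := by
    intro n
    set A := {ξ : ℕ → Fin 4 | ∃ k ≤ n, walkV (moves σ τ) o ξ (k + 1) = o} with hA
    have hAm : MeasurableSet A := by
      have : A = ⋃ k ∈ Set.Iic n, {ξ | walkV (moves σ τ) o ξ (k + 1) = o} := by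
        ext ξ; simp [hA]
      rw [this]
      refine MeasurableSet.biUnion (Set.to_countable _) ?_
      intro k _
      exact measurable_walkV _ o (k + 1) (show @MeasurableSet V ⊤ {o} from trivial)
    have hBA : B ⊆ Aᶜ := by
      intro ξ hξ hξA
      obtain ⟨k, _, hk⟩ := hξA
      exact hξ ⟨k + 1, by omega, hk⟩
    have hAval : stepLaw A = ENNReal.ofReal (avg σ τ (hn σ τ o n) o) := by
      rw [stepLaw_apply hAm]
      have : ∀ d : Fin 4, {ξ | consSeq d ξ ∈ A} =
          {ξ | ∃ k ≤ n, walkV (moves σ τ) (moves σ τ d o) ξ k = o} := by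
        intro d
        ext ξ
        simp only [hA, Set.mem_ofPred_eq, walkV_cons]
      simp_rw [this, stepLaw_hit]
      rw [← ofReal_avg σ τ (hn_nonneg σ τ o n)]
    calc stepLaw B ≤ stepLaw Aᶜ := measure_mono hBA
      _ = 1 - stepLaw A := by rw [measure_compl hAm (measure_ne_top _ _), measure_univ]
      _ = ENNReal.ofReal (qn σ τ o (n + 1)) := by
        rw [hAval]
        simp only [qn]
        rw [ENNReal.ofReal_sub]
        · simp
        · unfold avg
          have h := hn_nonneg σ τ o n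
          have := h (σ o); have := h (σ.symm o); have := h (τ o); have := h (τ.symm o)
          positivity
  have hlim : Tendsto (fun n => ENNReal.ofReal (qn σ τ o (n + 1))) atTop (𝓝 (ENNReal.ofReal 0)) :=
    (ENNReal.continuous_ofReal.tendsto 0).comp (hq.comp (tendsto_add_atTop_nat 1))
  rw [ENNReal.ofReal_zero] at hlim
  exact le_antisymm (ge_of_tendsto' hlim hsub) zero_le

end walk

end Pool.Agent.Lib.MP_01c081_pr
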