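import Mathlib
import Pool.Agent.Lib.MP_01c081_pr.Walk
import Pool.Agent.Lib.MP_01c081_pr.Defs

set_option autoImplicit false
set_option linter.unusedSectionVars false
set_option linter.unusedSimpArgs false

open Filter Topology Finset MeasureTheory
open scoped ENNReal

namespace Pool.Agent.Lib.MP_01c081_pr

/-- the point reached from `v` in direction `e` -/
noncomputable def nextPt (ω : Conf) (e v : ℤ × ℤ) : ℤ × ℤ := v + (gap e (shift v ω) : ℤ) • e

/-- there is a point of `ω` beyond each point in direction `e` -/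
def Ok (ω : Conf) (e : ℤ × ℤ) : Prop :=
  ∀ v, ω v = true → ∃ k : ℕ, 0 < k ∧ ω (v + (k : ℤ) • e) = true

lemma gap_spec {ω : Conf} {e : ℤ × ℤ} (h : Ok ω e) {v : ℤ × ℤ} (hv : ω v = true) :
    0 < gap e (shift v ω) ∧ ω (nextPt ω e v) = true := by
  have := Nat.sInf_mem (s := {k : ℕ | 0 < k ∧ (shift v ω) ((k : ℤ) • e) = true}) (h v hv)
  exact this

lemma gap_min {ω : Conf} {e : ℤ × ℤ} {v : ℤ × ℤ} {j : ℕ} (hj : 0 < j)
    (hj2 : j < gap e (shift v ω)) : ω (v + (j : ℤ) • e) = false := by
  have := Nat.notMem_of_lt_sInf hj2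
  by_contra hc
  apply this
  refine ⟨hj, ?_⟩
  simp only [Bool.not_eq_false] at hc
  exact hc

lemma gap_eq {ω : Conf} {e : ℤ × ℤ} {v : ℤ × ℤ} {g : ℕ} (hg : 0 < g)
    (hg2 : ω (v + (g : ℤ) • e) = true) (hlt : ∀ j : ℕ, 0 < j → j < g → ω (v + (j : ℤ) • e) = false) :
    gap e (shift v ω) = g := by
  apply le_antisymm
  · exact Nat.sInf_le ⟨hg, hg2⟩
  · have hne : {k : ℕ | 0 < k ∧ (shift v ω) ((k : ℤ) • e) = true}.Nonempty := ⟨g, hg, hg2⟩
    have hm := Nat.sInf_mem hne
    by_contra hc
    push Not at hc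
    have h1 := hlt _ hm.1 hc
    have h2 : ω (v + ((sInf {k : ℕ | 0 < k ∧ (shift v ω) ((k : ℤ) • e) = true} : ℕ) : ℤ) • e) = true :=
      hm.2
    rw [h2] at h1
    exact absurd h1 (by simp)

lemma nextPt_neg {ω : Conf} {e : ℤ × ℤ} (h : Ok ω e) {v : ℤ × ℤ} (hv : ω v = true) :
    nextPt ω (-e) (nextPt ω e v) = v := by
  obtain ⟨hpos, hmem⟩ := gap_spec h hv
  set g := gap e (shift v ω) with hg
  have hu : nextPt ω e v = v + (g : ℤ) • e := rfl
  have : gap (-e) (shift (nextPt ω e v) ω) = g := by
    apply gap_eq hpos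
    · rw [hu, smul_neg, add_neg_cancel_right]; exact hv
    · intro j hj hjg
      have : nextPt ω e v + (j : ℤ) • (-e) = v + ((g - j : ℕ) : ℤ) • e := by
        rw [hu, Nat.cast_sub hjg.le, sub_smul, smul_neg]
        abel
      rw [this]
      exact gap_min (by omega) (by omega)
  unfold nextPt at this ⊢
  rw [this]
  rw [smul_neg, ← hg, add_neg_cancel_right]

/-- the permutation of the points of `ω` given by the moves in direction `e` -/
noncomputable def moveEquiv (ω : Conf) (e : ℤ × ℤ) (h : Ok ω e) (h' : Ok ω (-e)) :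
    {v : ℤ × ℤ // ω v = true} ≃ {v : ℤ × ℤ // ω v = true} where
  toFun v := ⟨nextPt ω e v, (gap_spec h v.2).2⟩
  invFun v := ⟨nextPt ω (-e) v, (gap_spec h' v.2).2⟩
  left_inv v := by
    apply Subtype.ext
    exact nextPt_neg h v.2
  right_inv v := by
    apply Subtype.ext
    have := nextPt_neg h' v.2
    rw [neg_neg] at this
    exact this

/-- energy of a function in the environment `ω` -/
noncomputable def energy (ω : Conf) (h : ℤ × ℤ → ℝ) : ℝ≥0∞ :=
  ∑' v : ℤ × ℤ, if ω v = true then
    ENNReal.ofReal ((h v - h (nextPt ω (1, 0) v)) ^ 2) +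
      ENNReal.ofReal ((h v - h (nextPt ω (0, 1) v)) ^ 2) else 0

theorem returns {ω : Conf} (h0 : ω 0 = true) (hok : ∀ d, Ok ω (dir d))
    (H : ∀ ε : ℝ, 0 < ε → ∃ h : ℤ × ℤ → ℝ, Function.HasFiniteSupport h ∧ h 0 = 1 ∧
      energy ω h ≤ ENNReal.ofReal ε) :
    ∀ᵐ ξ ∂stepLaw, ∃ n, 1 ≤ n ∧ walk ω ξ n = 0 := by
  have hd0 : Ok ω (1, 0) := hok 0
  have hd1 : Ok ω (-(1, 0)) := by simpa [dir] using hok 1
  have hd2 : Ok ω (0, 1) := hok 2
  have hd3 : Ok ω (-(0, 1)) := by simpa [dir] using hok 3
  set σ := moveEquiv ω (1, 0) hd0 hd1 with hσ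
  set τ := moveEquiv ω (0, 1) hd2 hd3 with hτ
  have hwalk : ∀ ξ n, walk ω ξ n =
      ((walkV (moves σ τ) (⟨0, h0⟩ : {v : ℤ × ℤ // ω v = true}) ξ n : {v : ℤ × ℤ // ω v = true}) :
        ℤ × ℤ) := by
    intro ξ n
    induction n with
    | zero => rfl
    | succ n ih =>
      rw [walk, walkV, ih]
      generalize walkV (moves σ τ) (⟨0, h0⟩ : {v : ℤ × ℤ // ω v = true}) ξ n = w
      generalize ξ n = d
      fin_cases d
      · rfl
      · simp [moves, dir, hσ, moveEquiv, nextPt]
      · rfl
      · simp [moves, dir, hτ, moveEquiv, nextPt]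
  have key := ae_return σ τ (⟨0, h0⟩ : {v : ℤ × ℤ // ω v = true}) ?_
  · filter_upwards [key] with ξ hξ
    obtain ⟨n, hn, hn2⟩ := hξ
    refine ⟨n, hn, ?_⟩
    rw [hwalk, hn2]
  · intro ε hε
    obtain ⟨h, hfin, h01, hen⟩ := H ε hε
    refine ⟨fun v => h v, ?_, h01, ?_⟩
    · unfold Function.HasFiniteSupport at *
      exact hfin.preimage Subtype.val_injective.injOn
    · have hfin' : Function.HasFiniteSupport (fun v : {v : ℤ × ℤ // ω v = true} => h v) := by
        unfold Function.HasFiniteSupport at *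
        exact hfin.preimage Subtype.val_injective.injOn
      have e1 : en σ τ (fun v => h v) (fun v => h v) =
          ∑' v : {v : ℤ × ℤ // ω v = true}, ((h v - h (nextPt ω (1, 0) v)) ^ 2 +
            (h v - h (nextPt ω (0, 1) v)) ^ 2) := by
        unfold en
        congr 1
        ext v
        rw [sq, sq]
        rfl
      rw [e1]
      rw [← ENNReal.ofReal_le_ofReal_iff hε.le]
      refine le_trans (le_of_eq ?_) hen
      rw [ENNReal.ofReal_tsum_of_nonneg]
      · unfold energy
        have := _root_.tsum_subtype {v : ℤ × ℤ | ω v = true}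
          (fun v : ℤ × ℤ => ENNReal.ofReal ((h v - h (nextPt ω (1, 0) v)) ^ 2) +
            ENNReal.ofReal ((h v - h (nextPt ω (0, 1) v)) ^ 2))
        have e2 : ∀ v : {v : ℤ × ℤ // ω v = true},
            ENNReal.ofReal ((h v - h (nextPt ω (1, 0) v)) ^ 2 +
            (h v - h (nextPt ω (0, 1) v)) ^ 2) =
            ENNReal.ofReal ((h v - h (nextPt ω (1, 0) v)) ^ 2) +
            ENNReal.ofReal ((h v - h (nextPt ω (0, 1) v)) ^ 2) := by
          intro v
          rw [ENNReal.ofReal_add (sq_nonneg _) (sq_nonneg _)]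
        simp_rw [e2]
        refine Eq.trans this ?_
        refine tsum_congr fun v => ?_
        by_cases hv : ω v = true
        · rw [if_pos hv, Set.indicator_of_mem (show v ∈ {v : ℤ × ℤ | ω v = true} from hv)]
        · rw [if_neg hv, Set.indicator_of_notMem (show v ∉ {v : ℤ × ℤ | ω v = true} from hv)]
      · intro v; positivity
      · have s1 : Summable (fun v : {v : ℤ × ℤ // ω v = true} => (h v - h (nextPt ω (1, 0) v)) ^ 2) := by
          apply summable_of_hasFiniteSupport
          have := hfs_sub_comp hfin' σ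
          unfold Function.HasFiniteSupport at *
          refine this.subset ?_
          intro v hv hc
          apply hv
          have hc' : h v - h (nextPt ω (1, 0) v) = 0 := hc
          simp only [hc']
          norm_num
        have s2 : Summable (fun v : {v : ℤ × ℤ // ω v = true} => (h v - h (nextPt ω (0, 1) v)) ^ 2) := by
          apply summable_of_hasFiniteSupport
          have := hfs_sub_comp hfin' τ
          unfold Function.HasFiniteSupport at *
          refine this.subset ?_
          intro v hv hc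
          apply hv
          have hc' : h v - h (nextPt ω (0, 1) v) = 0 := hc
          simp only [hc']
          norm_num
        exact s1.add s2

end Pool.Agent.Lib.MP_01c081_pr
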