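import Mathlib
import Pool.Agent.Lib.MP_01c081_pr.Env

set_option autoImplicit false
set_option linter.unusedSectionVars false
set_option linter.unusedSimpArgs false

open Filter Topology Finset MeasureTheory
open scoped ENNReal

namespace Pool.Agent.Lib.MP_01c081_pr

/-- exponents of the lengths of the long gaps -/
def nE (j : ℕ) : ℕ := 8 ^ (j + 1)

/-- exponents of the periods of the long gaps -/
def mE (j : ℕ) : ℕ := 2 * 8 ^ (j + 1) - j

lemma lt_pow8 (j : ℕ) : j < 8 ^ j := Nat.lt_pow_self (by norm_num)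

lemma nE_lt_mE (j : ℕ) : nE j < mE j := by
  unfold nE mE
  have := lt_pow8 j
  have h : 8 ^ (j + 1) = 8 * 8 ^ j := by ring
  omega

lemma mE_le_nE {i j : ℕ} (h : i < j) : mE i ≤ nE j := by
  unfold nE mE
  have h1 : 8 ^ (i + 1 + 1) ≤ 8 ^ (j + 1) := Nat.pow_le_pow_right (by norm_num) (by omega)
  have h2 : 8 ^ (i + 1 + 1) = 8 * 8 ^ (i + 1) := by ring
  omega

lemma mE_mono {i j : ℕ} (h : i ≤ j) : mE i ≤ mE j := by
  rcases h.eq_or_lt with rfl | h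
  · exact le_rfl
  · exact (mE_le_nE h).trans (nE_lt_mE j).le

lemma mE_strictMono : StrictMono mE := by
  intro i j h
  exact lt_of_le_of_lt (mE_le_nE h) (nE_lt_mE j)

/-- the allowed set -/
def Gset : Set ℤ_[2] := {b | ∀ j r : ℕ, 0 < r → r < 2 ^ nE j → ¬ ((2 : ℤ_[2]) ^ mE j ∣ b - r)}

lemma dvd_int (m : ℕ) (a : ℤ) : (2 : ℤ_[2]) ^ m ∣ (a : ℤ_[2]) ↔ (2 : ℤ) ^ m ∣ a := by
  have := PadicInt.pow_p_dvd_int_iff (p := 2) m a
  simpa using this

lemma dvd_nat (m : ℕ) (a : ℕ) : (2 : ℤ_[2]) ^ m ∣ (a : ℤ_[2]) ↔ 2 ^ m ∣ a := by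
  have := dvd_int m a
  rw [Int.cast_natCast] at this
  rw [this]
  exact_mod_cast Iff.rfl

lemma not_dvd_of_lt {m r : ℕ} (h0 : 0 < r) (h : r < 2 ^ m) : ¬ ((2 : ℤ_[2]) ^ m ∣ (r : ℤ_[2])) := by
  rw [dvd_nat]
  exact fun hd => absurd (Nat.le_of_dvd h0 hd) (not_le.2 h)

lemma dvd_mono {i j : ℕ} (h : i ≤ j) : (2 : ℤ_[2]) ^ i ∣ (2 : ℤ_[2]) ^ j := pow_dvd_pow _ h

lemma two_pow_nE_cast (j : ℕ) : ((2 ^ nE j : ℕ) : ℤ_[2]) = (2 : ℤ_[2]) ^ nE j := by push_cast; ring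

lemma fwd1 {b : ℤ_[2]} (hb : b ∈ Gset) (h : ∀ j, ¬ (2 : ℤ_[2]) ^ mE j ∣ b) : b + 1 ∈ Gset := by
  intro j r hr hr2 hd
  rcases Nat.exists_eq_succ_of_ne_zero hr.ne' with ⟨s, rfl⟩
  have e : b + 1 - ((s.succ : ℕ) : ℤ_[2]) = b - s := by push_cast; ring
  rw [e] at hd
  rcases Nat.eq_zero_or_pos s with rfl | hs
  · apply h j; simpa using hd
  · exact hb j s hs (by omega) hd

lemma fwd2 {b : ℤ_[2]} (hb : b ∈ Gset) {J : ℕ} (hJ : (2 : ℤ_[2]) ^ mE J ∣ b)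
    (h : ∀ j, J < j → ¬ (2 : ℤ_[2]) ^ mE j ∣ b) : b + (2 ^ nE J : ℕ) ∈ Gset := by
  intro j r hr hr2 hd
  rcases lt_trichotomy j J with hlt | rfl | hgt
  · -- j < J
    have h1 : (2 : ℤ_[2]) ^ mE j ∣ b := (dvd_mono (mE_mono hlt.le)).trans hJ
    have h2 : (2 : ℤ_[2]) ^ mE j ∣ ((2 ^ nE J : ℕ) : ℤ_[2]) := by
      rw [two_pow_nE_cast]; exact dvd_mono (mE_le_nE hlt)
    have h3 : (2 : ℤ_[2]) ^ mE j ∣ (r : ℤ_[2]) := by
      have := dvd_sub (dvd_add h1 h2) hd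
      simpa using this
    exact not_dvd_of_lt hr (hr2.trans (Nat.pow_lt_pow_right (by norm_num) (nE_lt_mE j))) h3
  · -- j = J
    have h3 : (2 : ℤ_[2]) ^ mE j ∣ ((2 ^ nE j - r : ℕ) : ℤ_[2]) := by
      have := dvd_sub hd hJ
      rw [Nat.cast_sub hr2.le]
      have e : b + ((2 ^ nE j : ℕ) : ℤ_[2]) - (r : ℤ_[2]) - b = ((2 ^ nE j : ℕ) : ℤ_[2]) - r := by
        ring
      rw [e] at this
      exact this
    refine not_dvd_of_lt (by omega) ?_ h3
    have := Nat.pow_lt_pow_right (a := 2) (by norm_num) (nE_lt_mE j)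
    omega
  · -- J < j
    rcases lt_trichotomy r (2 ^ nE J) with hr3 | rfl | hr3
    · have h3 : (2 : ℤ_[2]) ^ mE J ∣ ((2 ^ nE J - r : ℕ) : ℤ_[2]) := by
        have h4 := (dvd_mono (mE_mono hgt.le)).trans hd
        have := dvd_sub h4 hJ
        rw [Nat.cast_sub hr3.le]
        have e : b + ((2 ^ nE J : ℕ) : ℤ_[2]) - (r : ℤ_[2]) - b = ((2 ^ nE J : ℕ) : ℤ_[2]) - r := by
          ring
        rw [e] at this
        exact this
      refine not_dvd_of_lt (by omega) ?_ h3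
      have := Nat.pow_lt_pow_right (a := 2) (by norm_num) (nE_lt_mE J)
      omega
    · apply h j hgt
      simpa using hd
    · refine hb j (r - 2 ^ nE J) (by omega) (lt_of_le_of_lt (Nat.sub_le _ _) hr2) ?_
      rw [Nat.cast_sub hr3.le]
      have e : b - ((r : ℤ_[2]) - ((2 ^ nE J : ℕ) : ℤ_[2])) = b + ((2 ^ nE J : ℕ) : ℤ_[2]) - r := by
        ring
      rw [e]
      exact hd

lemma gap_zone {b : ℤ_[2]} {J : ℕ} (hJ : (2 : ℤ_[2]) ^ mE J ∣ b) {k : ℕ} (hk : 0 < k)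
    (hk2 : k < 2 ^ nE J) : b + k ∉ Gset := by
  intro hc
  apply hc J k hk hk2
  simpa using hJ

lemma bwd {b : ℤ_[2]} (hb : b ∈ Gset) : b - 1 ∈ Gset ∨ ∃ j, b - (2 ^ nE j : ℕ) ∈ Gset := by
  by_contra hcon
  push Not at hcon
  obtain ⟨h1, h2⟩ := hcon
  have : ∃ j r : ℕ, 0 < r ∧ r < 2 ^ nE j ∧ (2 : ℤ_[2]) ^ mE j ∣ b - 1 - r := by
    by_contra hc
    push Not at hc
    exact h1 hc
  obtain ⟨j, r, hr, hr2, hd⟩ := this
  have e : b - 1 - (r : ℤ_[2]) = b - ((r + 1 : ℕ) : ℤ_[2]) := by push_cast; ring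
  rw [e] at hd
  have hr3 : r + 1 = 2 ^ nE j := by
    by_contra hc
    exact hb j (r + 1) (by omega) (by omega) hd
  rw [hr3] at hd
  apply h2 j
  intro i s hs hs2 hd2
  rcases le_or_gt i j with hij | hij
  · have h3 := (dvd_mono (mE_mono hij)).trans hd
    have h4 : (2 : ℤ_[2]) ^ mE i ∣ (s : ℤ_[2]) := by
      have := dvd_sub h3 hd2
      simpa using this
    exact not_dvd_of_lt hs (hs2.trans (Nat.pow_lt_pow_right (by norm_num) (nE_lt_mE i))) h4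
  · have h4 : (2 : ℤ_[2]) ^ mE j ∣ (s : ℤ_[2]) := by
      have := dvd_sub hd ((dvd_mono (mE_mono hij.le)).trans hd2)
      simpa using this
    rw [dvd_nat] at h4
    have h5 : 2 ^ mE j ∣ 2 ^ nE i := pow_dvd_pow _ (mE_le_nE hij)
    obtain ⟨c, hc⟩ := h4
    obtain ⟨d, hd'⟩ := h5
    have hcd : c < d := by
      rw [hc, hd'] at hs2
      exact lt_of_mul_lt_mul_left hs2 (Nat.zero_le _)
    have h6 : s + 2 ^ mE j ≤ 2 ^ nE i := by
      rw [hc, hd']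
      calc 2 ^ mE j * c + 2 ^ mE j = 2 ^ mE j * (c + 1) := by ring
        _ ≤ 2 ^ mE j * d := Nat.mul_le_mul_left _ hcd
    have h7 := Nat.pow_lt_pow_right (a := 2) (by norm_num) (nE_lt_mE j)
    refine hb i (s + 2 ^ nE j) (by omega) (by omega) ?_
    have e : b - ((s + 2 ^ nE j : ℕ) : ℤ_[2]) = b - ((2 ^ nE j : ℕ) : ℤ_[2]) - s := by
      push_cast; ring
    rw [e]
    exact hd2

lemma eq_zero_of_forall_dvd {b : ℤ_[2]} (h : ∀ j, (2 : ℤ_[2]) ^ mE j ∣ b) : b = 0 := by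
  by_contra hb
  have h1 : ∀ n : ℕ, (2 : ℤ_[2]) ^ n ∣ b := by
    intro n
    refine (dvd_mono ?_).trans (h n)
    exact mE_strictMono.le_apply
  have h2 : ∀ n : ℕ, n ≤ b.valuation := by
    intro n
    have := h1 n
    have h3 := (PadicInt.mem_span_pow_iff_le_valuation b hb n).1 (by
      rw [Ideal.mem_span_singleton]
      simpa using this)
    exact h3
  have := h2 (b.valuation + 1)
  omega

/-- the forward gap dichotomy -/
lemma fwd {b : ℤ_[2]} (hb : b ∈ Gset) (h0 : b ≠ 0) :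
    (b + 1 ∈ Gset) ∨ ∃ J, (2 : ℤ_[2]) ^ mE J ∣ b ∧ b + (2 ^ nE J : ℕ) ∈ Gset ∧
      ∀ k : ℕ, 0 < k → k < 2 ^ nE J → b + k ∉ Gset := by
  by_cases h : ∀ j, ¬ (2 : ℤ_[2]) ^ mE j ∣ b
  · left; exact fwd1 hb h
  · right
    push Not at h
    have hex : ∃ j, ¬ (2 : ℤ_[2]) ^ mE j ∣ b := by
      by_contra hc
      push Not at hc
      exact h0 (eq_zero_of_forall_dvd hc)
    classical
    -- the least index that does not divide
    have hspec := Nat.find_spec hex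
    have hmin := fun j => Nat.find_min hex (m := j)
    set J' := Nat.find hex with hJ'
    have hJpos : J' ≠ 0 := by
      intro h00
      obtain ⟨j, hj⟩ := h
      rw [h00] at hspec
      exact hspec ((dvd_mono (mE_mono (Nat.zero_le j))).trans hj)
    obtain ⟨J, hJ⟩ := Nat.exists_eq_succ_of_ne_zero hJpos
    have h1 : (2 : ℤ_[2]) ^ mE J ∣ b := by
      have := hmin J (by omega)
      push Not at this
      exact this
    have h2 : ∀ j, J < j → ¬ (2 : ℤ_[2]) ^ mE j ∣ b := by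
      intro j hj hd
      apply hspec
      exact (dvd_mono (mE_mono (by omega))).trans hd
    exact ⟨J, h1, fwd2 hb h1 h2, fun k hk hk2 => gap_zone h1 hk hk2⟩

open Classical in
/-- the configuration attached to a 2-adic integer -/
noncomputable def conf (a : ℤ_[2]) : Conf := fun v => decide (a + ((v.1 + v.2 : ℤ) : ℤ_[2]) ∈ Gset)

lemma conf_true {a : ℤ_[2]} {v : ℤ × ℤ} :
    conf a v = true ↔ a + ((v.1 + v.2 : ℤ) : ℤ_[2]) ∈ Gset := by
  simp [conf]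

/-- `a` is not an ordinary integer -/
def Good (a : ℤ_[2]) : Prop := ∀ n : ℤ, a + (n : ℤ_[2]) ≠ 0

lemma ok_pos {a : ℤ_[2]} (ha : Good a) {e : ℤ × ℤ} (he : e.1 + e.2 = 1) : Ok (conf a) e := by
  intro v hv
  rw [conf_true] at hv
  rcases fwd hv (ha _) with h | ⟨J, _, h, _⟩
  · refine ⟨1, one_pos, ?_⟩
    rw [conf_true]
    have e1 : (v + ((1 : ℕ) : ℤ) • e).1 + (v + ((1 : ℕ) : ℤ) • e).2 = (v.1 + v.2) + 1 := by
      simp only [Nat.cast_one, one_smul, Prod.fst_add, Prod.snd_add]; linarith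
    rw [e1]
    push_cast at h ⊢
    rw [← add_assoc]
    exact h
  · refine ⟨2 ^ nE J, by positivity, ?_⟩
    rw [conf_true]
    have e1 : (v + ((2 ^ nE J : ℕ) : ℤ) • e).1 + (v + ((2 ^ nE J : ℕ) : ℤ) • e).2
        = (v.1 + v.2) + ((2 ^ nE J : ℕ) : ℤ) := by
      simp only [Prod.fst_add, Prod.snd_add, Prod.smul_fst, Prod.smul_snd, smul_eq_mul]
      have : ((2 ^ nE J : ℕ) : ℤ) * e.1 + ((2 ^ nE J : ℕ) : ℤ) * e.2 = ((2 ^ nE J : ℕ) : ℤ) := by
        rw [← mul_add, he, mul_one]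
      linarith
    rw [e1]
    push_cast at h ⊢
    rw [← add_assoc]
    exact h

lemma ok_neg {a : ℤ_[2]} {e : ℤ × ℤ} (he : e.1 + e.2 = -1) : Ok (conf a) e := by
  intro v hv
  rw [conf_true] at hv
  rcases bwd hv with h | ⟨J, h⟩
  · refine ⟨1, one_pos, ?_⟩
    rw [conf_true]
    have e1 : (v + ((1 : ℕ) : ℤ) • e).1 + (v + ((1 : ℕ) : ℤ) • e).2 = (v.1 + v.2) - 1 := by
      simp only [Nat.cast_one, one_smul, Prod.fst_add, Prod.snd_add]; linarith
    rw [e1]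
    push_cast at h ⊢
    rw [← add_sub_assoc]
    exact h
  · refine ⟨2 ^ nE J, by positivity, ?_⟩
    rw [conf_true]
    have e1 : (v + ((2 ^ nE J : ℕ) : ℤ) • e).1 + (v + ((2 ^ nE J : ℕ) : ℤ) • e).2
        = (v.1 + v.2) - ((2 ^ nE J : ℕ) : ℤ) := by
      simp only [Prod.fst_add, Prod.snd_add, Prod.smul_fst, Prod.smul_snd, smul_eq_mul]
      have : ((2 ^ nE J : ℕ) : ℤ) * e.1 + ((2 ^ nE J : ℕ) : ℤ) * e.2 = - ((2 ^ nE J : ℕ) : ℤ) := by
        rw [← mul_add, he]; ring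
      linarith
    rw [e1]
    push_cast at h ⊢
    rw [← add_sub_assoc]
    exact h

lemma ok_dir {a : ℤ_[2]} (ha : Good a) (d : Fin 4) : Ok (conf a) (dir d) := by
  fin_cases d
  · exact ok_pos ha (by simp [dir])
  · exact ok_neg (by simp [dir])
  · exact ok_pos ha (by simp [dir])
  · exact ok_neg (by simp [dir])

/-- the value of the gap in a positive coordinate direction -/
lemma gap_conf {a : ℤ_[2]} (ha : Good a) {e : ℤ × ℤ} (he : e.1 + e.2 = 1) {v : ℤ × ℤ}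
    (hv : conf a v = true) : gap e (shift v (conf a)) = 1 ∨
    ∃ J, (2 : ℤ_[2]) ^ mE J ∣ a + ((v.1 + v.2 : ℤ) : ℤ_[2]) ∧
      gap e (shift v (conf a)) = 2 ^ nE J := by
  have hv' := hv
  rw [conf_true] at hv
  have e1 : ∀ k : ℕ, (v + (k : ℤ) • e).1 + (v + (k : ℤ) • e).2 = (v.1 + v.2) + (k : ℤ) := by
    intro k
    simp only [Prod.fst_add, Prod.snd_add, Prod.smul_fst, Prod.smul_snd, smul_eq_mul]
    have : (k : ℤ) * e.1 + (k : ℤ) * e.2 = (k : ℤ) := by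
      rw [← mul_add, he, mul_one]
    linarith
  have e2 : ∀ k : ℕ, (conf a (v + (k : ℤ) • e) = true) ↔
      (a + ((v.1 + v.2 : ℤ) : ℤ_[2])) + (k : ℤ_[2]) ∈ Gset := by
    intro k
    rw [conf_true, e1]
    push_cast
    rw [← add_assoc]
  rcases fwd hv (ha _) with h | ⟨J, h1, h2, h3⟩
  · left
    refine gap_eq one_pos ?_ ?_
    · rw [e2]; simpa using h
    · intro j hj hj2; omega
  · right
    refine ⟨J, h1, gap_eq (by positivity) ?_ ?_⟩
    · rw [e2]; exact h2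
    · intro j hj hj2
      have := h3 j hj hj2
      rw [← e2] at this
      simpa using this

end Pool.Agent.Lib.MP_01c081_pr
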