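import Mathlib

set_option autoImplicit false
set_option linter.unusedSectionVars false
set_option linter.unusedSimpArgs false

open Filter Topology Finset MeasureTheory
open scoped ENNReal

namespace Pool.Agent.Lib.MP_01c081_pr

/-- sup norm -/
def nrm (v : ℤ × ℤ) : ℕ := max v.1.natAbs v.2.natAbs

/-- harmonic numbers -/
noncomputable def Hm (n : ℕ) : ℝ := ∑ i ∈ range n, (1 : ℝ) / (i + 1)

lemma Hm_succ (n : ℕ) : Hm (n + 1) = Hm n + 1 / (n + 1) := by
  unfold Hm; rw [sum_range_succ]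

lemma Hm_mono {m n : ℕ} (h : m ≤ n) : Hm m ≤ Hm n := by
  unfold Hm
  refine sum_le_sum_of_subset_of_nonneg (range_mono h) ?_
  intro i _ _
  positivity

lemma Hm_nonneg (n : ℕ) : 0 ≤ Hm n := by
  unfold Hm; exact sum_nonneg fun i _ => by positivity

lemma one_le_Hm {n : ℕ} (h : 1 ≤ n) : 1 ≤ Hm n := by
  have := Hm_mono h
  have h1 : Hm 1 = 1 := by simp [Hm]
  linarith

/-- radial profile -/
noncomputable def prof (R k : ℕ) : ℝ := (Hm R - Hm (min k R)) / Hm R

/-- test function -/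
noncomputable def tf (R : ℕ) (v : ℤ × ℤ) : ℝ := prof R (nrm v)

lemma tf_zero {R : ℕ} (hR : 1 ≤ R) : tf R 0 = 1 := by
  have := one_le_Hm hR
  simp only [tf, prof, nrm]
  simp only [Prod.fst_zero, Prod.snd_zero, Int.natAbs_zero, max_self, zero_le, inf_of_le_left]
  have h0 : Hm 0 = 0 := by simp [Hm]
  rw [h0, sub_zero, div_self (by linarith)]

lemma prof_nonneg {R : ℕ} (hR : 1 ≤ R) (k : ℕ) : 0 ≤ prof R k := by
  have := one_le_Hm hR
  unfold prof
  apply div_nonneg _ (by linarith)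
  have := Hm_mono (min_le_right k R)
  linarith

lemma prof_le_one {R : ℕ} (hR : 1 ≤ R) (k : ℕ) : prof R k ≤ 1 := by
  have := one_le_Hm hR
  unfold prof
  rw [div_le_one (by linarith)]
  have := Hm_nonneg (min k R)
  linarith

lemma prof_eq_zero {R k : ℕ} (h : R ≤ k) : prof R k = 0 := by
  unfold prof
  rw [min_eq_right h, sub_self, zero_div]

lemma prof_diff {R : ℕ} (hR : 1 ≤ R) (k : ℕ) :
    |prof R k - prof R (k + 1)| ≤ 1 / (k + 1) / Hm R := by
  have h1 := one_le_Hm hR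
  rcases lt_or_ge k R with h | h
  · unfold prof
    rw [min_eq_left h.le, min_eq_left (show k + 1 ≤ R from h), Hm_succ]
    have : (Hm R - Hm k) / Hm R - (Hm R - (Hm k + 1 / (k + 1))) / Hm R = 1 / (k + 1) / Hm R := by
      field_simp
      ring
    rw [this, abs_of_nonneg (by positivity)]
  · rw [prof_eq_zero h, prof_eq_zero (by omega)]
    simp only [sub_self, abs_zero]
    positivity

/-- bound for the squared gradient -/
noncomputable def gb (R k : ℕ) : ℝ := if k ≤ R then (1 / (max k 1 : ℕ) / Hm R) ^ 2 else 0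

lemma nrm_add_e {v e : ℤ × ℤ} (he : e = (1, 0) ∨ e = (0, 1)) :
    nrm (v + e) = nrm v ∨ nrm (v + e) = nrm v + 1 ∨ nrm (v + e) + 1 = nrm v := by
  rcases he with rfl | rfl
  · simp only [nrm, Prod.fst_add, Prod.snd_add, add_zero]; omega
  · simp only [nrm, Prod.fst_add, Prod.snd_add, add_zero]; omega

lemma tf_diff {R : ℕ} (hR : 1 ≤ R) {v e : ℤ × ℤ} (he : e = (1, 0) ∨ e = (0, 1)) :
    (tf R v - tf R (v + e)) ^ 2 ≤ gb R (nrm v) := by
  have h1 := one_le_Hm hR
  have hgb : 0 ≤ gb R (nrm v) := by unfold gb; split_ifs <;> positivity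
  rcases nrm_add_e (v := v) he with h | h | h
  · unfold tf; rw [h, sub_self]; simpa using hgb
  · unfold tf; rw [h]
    by_cases hk : nrm v ≤ R
    · have h2 := prof_diff hR (nrm v)
      rw [← sq_abs]
      unfold gb
      rw [if_pos hk]
      apply pow_le_pow_left₀ (abs_nonneg _)
      refine h2.trans ?_
      apply div_le_div_of_nonneg_right _ (by linarith)
      apply one_div_le_one_div_of_le
      · positivity
      · have : max (nrm v) 1 ≤ nrm v + 1 := by omega
        exact_mod_cast this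
    · rw [prof_eq_zero (by omega), prof_eq_zero (by omega)]
      simpa using hgb
  · unfold tf
    rw [← h]
    by_cases hk : nrm v ≤ R
    · have h2 := prof_diff hR (nrm (v + e))
      rw [← sq_abs, abs_sub_comm]
      unfold gb
      rw [if_pos (by omega)]
      apply pow_le_pow_left₀ (abs_nonneg _)
      refine h2.trans ?_
      apply div_le_div_of_nonneg_right _ (by linarith)
      apply one_div_le_one_div_of_le
      · positivity
      · have : max (nrm (v + e) + 1) 1 ≤ nrm (v + e) + 1 := by omega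
        exact_mod_cast this
    · rw [prof_eq_zero (by omega), prof_eq_zero (by omega)]
      have : 0 ≤ gb R (nrm (v + e) + 1) := by unfold gb; split_ifs <;> positivity
      simpa using this

/-- one-step energy in direction `e`, with steps of length `N` -/
noncomputable def DN (h : ℤ × ℤ → ℝ) (e : ℤ × ℤ) (N : ℕ) : ℝ≥0∞ :=
  ∑' v : ℤ × ℤ, ENNReal.ofReal ((h v - h (v + (N : ℤ) • e)) ^ 2)

lemma tsum_gb (R : ℕ) (hR : 1 ≤ R) :
    ∑' v : ℤ × ℤ, ENNReal.ofReal (gb R (nrm v)) ≤ ENNReal.ofReal (9 / Hm R) := by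
  have h1 := one_le_Hm hR
  set s : Finset (ℤ × ℤ) := (range (R + 1)).biUnion (fun k => Finset.box k) with hs
  have hsupp : ∀ v ∉ s, ENNReal.ofReal (gb R (nrm v)) = 0 := by
    intro v hv
    have : ¬ nrm v ≤ R := by
      intro hc
      apply hv
      rw [hs, Finset.mem_biUnion]
      exact ⟨nrm v, by simpa [Nat.lt_succ_iff] using hc, Int.mem_box.2 rfl⟩
    unfold gb
    rw [if_neg this, ENNReal.ofReal_zero]
  rw [tsum_eq_sum hsupp]
  rw [← ENNReal.ofReal_sum_of_nonneg (fun v _ => by unfold gb; split_ifs <;> positivity)]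
  apply ENNReal.ofReal_le_ofReal
  have hdisj : Set.PairwiseDisjoint ((range (R + 1) : Finset ℕ) : Set ℕ)
      (fun k => (Finset.box k : Finset (ℤ × ℤ))) := by
    intro a _ b _ hab
    rw [Function.onFun, Finset.disjoint_left]
    intro v hv1 hv2
    rw [Int.mem_box] at hv1 hv2
    exact hab (hv1.symm.trans hv2)
  rw [hs, Finset.sum_biUnion hdisj]
  have e1 : ∀ k ∈ range (R + 1), ∑ v ∈ (Finset.box k : Finset (ℤ × ℤ)), gb R (nrm v) =
      ((Finset.box k : Finset (ℤ × ℤ)).card : ℝ) * (1 / (max k 1 : ℕ) / Hm R) ^ 2 := by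
    intro k hk
    rw [Finset.sum_congr rfl (g := fun _ => (1 / ((max k 1 : ℕ) : ℝ) / Hm R) ^ 2)]
    · rw [Finset.sum_const, nsmul_eq_mul]
    · intro v hv
      rw [Int.mem_box] at hv
      have : nrm v = k := hv
      unfold gb
      rw [this, if_pos (by simpa [Nat.lt_succ_iff] using hk)]
  rw [Finset.sum_congr rfl e1, Finset.sum_range_succ']
  have e2 : ∀ k ∈ range R, ((Finset.box (k + 1) : Finset (ℤ × ℤ)).card : ℝ) *
      (1 / (max (k + 1) 1 : ℕ) / Hm R) ^ 2 = 8 / (Hm R) ^ 2 * (1 / ((k : ℝ) + 1)) := by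
    intro k _
    rw [Int.card_box (by omega)]
    have : max (k + 1) 1 = k + 1 := by omega
    rw [this]
    push_cast
    field_simp
  rw [Finset.sum_congr rfl e2, ← Finset.mul_sum]
  have e3 : ∑ i ∈ range R, 1 / ((i : ℝ) + 1) = Hm R := rfl
  rw [e3]
  have e4 : ((Finset.box 0 : Finset (ℤ × ℤ)).card : ℝ) = 1 := by simp
  rw [e4]
  simp only [zero_le, sup_of_le_right, Nat.cast_one, ne_eq, one_ne_zero, not_false_eq_true,
    div_self, one_mul]
  have e5 : 8 / Hm R ^ 2 * Hm R + (1 / Hm R) ^ 2 = 8 / Hm R + 1 / (Hm R) ^ 2 := by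
    field_simp
  rw [e5]
  have : 1 / (Hm R) ^ 2 ≤ 1 / Hm R := by
    apply one_div_le_one_div_of_le (by linarith)
    nlinarith
  have e6 : 9 / Hm R = 8 / Hm R + 1 / Hm R := by ring
  rw [e6]
  linarith

lemma DN_tf_one {R : ℕ} (hR : 1 ≤ R) {e : ℤ × ℤ} (he : e = (1, 0) ∨ e = (0, 1)) :
    DN (tf R) e 1 ≤ ENNReal.ofReal (9 / Hm R) := by
  refine le_trans ?_ (tsum_gb R hR)
  unfold DN
  refine ENNReal.tsum_le_tsum ?_
  intro v
  apply ENNReal.ofReal_le_ofReal
  have := tf_diff hR (v := v) he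
  simpa using this

lemma DN_le_sq (h : ℤ × ℤ → ℝ) (e : ℤ × ℤ) (N : ℕ) : DN h e N ≤ (N : ℝ≥0∞) ^ 2 * DN h e 1 := by
  unfold DN
  have step : ∀ v : ℤ × ℤ, ENNReal.ofReal ((h v - h (v + (N : ℤ) • e)) ^ 2) ≤
      (N : ℝ≥0∞) * ∑ i ∈ range N, ENNReal.ofReal ((h (v + (i : ℤ) • e) -
        h (v + (i : ℤ) • e + ((1 : ℕ) : ℤ) • e)) ^ 2) := by
    intro v
    have e1 : h v - h (v + (N : ℤ) • e) = ∑ i ∈ range N, (h (v + (i : ℤ) • e) -
        h (v + (i : ℤ) • e + ((1 : ℕ) : ℤ) • e)) := by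
      have := Finset.sum_range_sub' (fun i : ℕ => h (v + (i : ℤ) • e)) N
      simp only [Nat.cast_zero, zero_smul, add_zero] at this
      rw [← this]
      refine Finset.sum_congr rfl fun i _ => ?_
      congr 2
      push_cast
      rw [add_smul, one_smul, add_assoc]
    rw [e1, ← ENNReal.ofReal_natCast, ← ENNReal.ofReal_sum_of_nonneg (fun i _ => sq_nonneg _),
      ← ENNReal.ofReal_mul (by positivity)]
    apply ENNReal.ofReal_le_ofReal
    have := sq_sum_le_card_mul_sum_sq (s := range N) (f := fun i : ℕ => (h (v + (i : ℤ) • e) -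
        h (v + (i : ℤ) • e + ((1 : ℕ) : ℤ) • e)))
    rw [card_range] at this
    exact this
  refine (ENNReal.tsum_le_tsum step).trans ?_
  rw [ENNReal.tsum_mul_left, Summable.tsum_finsetSum (fun i _ => ENNReal.summable)]
  have e2 : ∀ i ∈ range N, ∑' v : ℤ × ℤ, ENNReal.ofReal ((h (v + (i : ℤ) • e) -
        h (v + (i : ℤ) • e + ((1 : ℕ) : ℤ) • e)) ^ 2) =
      ∑' v : ℤ × ℤ, ENNReal.ofReal ((h v - h (v + ((1 : ℕ) : ℤ) • e)) ^ 2) := by
    intro i _
    exact Equiv.tsum_eq (Equiv.addRight ((i : ℤ) • e))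
      (fun v => ENNReal.ofReal ((h v - h (v + ((1 : ℕ) : ℤ) • e)) ^ 2))
  rw [Finset.sum_congr rfl e2, Finset.sum_const, card_range, nsmul_eq_mul, ← mul_assoc, sq]

lemma DN_le_mass (h : ℤ × ℤ → ℝ) (e : ℤ × ℤ) (N : ℕ) :
    DN h e N ≤ 4 * ∑' v : ℤ × ℤ, ENNReal.ofReal ((h v) ^ 2) := by
  unfold DN
  have step : ∀ v : ℤ × ℤ, ENNReal.ofReal ((h v - h (v + (N : ℤ) • e)) ^ 2) ≤
      2 * ENNReal.ofReal ((h v) ^ 2) + 2 * ENNReal.ofReal ((h (v + (N : ℤ) • e)) ^ 2) := by
    intro v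
    have : (2 : ℝ≥0∞) = ENNReal.ofReal 2 := by simp
    rw [this, ← ENNReal.ofReal_mul (by norm_num), ← ENNReal.ofReal_mul (by norm_num),
      ← ENNReal.ofReal_add (by positivity) (by positivity)]
    apply ENNReal.ofReal_le_ofReal
    nlinarith [sq_nonneg (h v + h (v + (N : ℤ) • e))]
  refine (ENNReal.tsum_le_tsum step).trans ?_
  rw [ENNReal.tsum_add, ENNReal.tsum_mul_left, ENNReal.tsum_mul_left]
  have e2 : ∑' v : ℤ × ℤ, ENNReal.ofReal ((h (v + (N : ℤ) • e)) ^ 2) =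
      ∑' v : ℤ × ℤ, ENNReal.ofReal ((h v) ^ 2) :=
    Equiv.tsum_eq (Equiv.addRight ((N : ℤ) • e)) (fun v => ENNReal.ofReal ((h v) ^ 2))
  rw [e2, ← add_mul]
  norm_num

lemma mass_tf {R : ℕ} (hR : 1 ≤ R) :
    ∑' v : ℤ × ℤ, ENNReal.ofReal ((tf R v) ^ 2) ≤ ((2 * R + 1) ^ 2 : ℕ) := by
  set s : Finset (ℤ × ℤ) := (Finset.Icc (-(R : ℤ)) R) ×ˢ (Finset.Icc (-(R : ℤ)) R) with hs
  have hsupp : ∀ v ∉ s, ENNReal.ofReal ((tf R v) ^ 2) = 0 := by
    intro v hv
    have : R ≤ nrm v := by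
      by_contra hc
      push Not at hc
      apply hv
      rw [hs, Finset.mem_product, Finset.mem_Icc, Finset.mem_Icc]
      unfold nrm at hc
      omega
    unfold tf
    rw [prof_eq_zero this]
    simp
  rw [tsum_eq_sum hsupp]
  have : ∀ v ∈ s, ENNReal.ofReal ((tf R v) ^ 2) ≤ 1 := by
    intro v _
    rw [← ENNReal.ofReal_one]
    apply ENNReal.ofReal_le_ofReal
    have h1 := prof_nonneg hR (nrm v)
    have h2 := prof_le_one hR (nrm v)
    unfold tf
    nlinarith
  refine (Finset.sum_le_card_nsmul s _ 1 this).trans ?_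
  rw [nsmul_eq_mul, mul_one]
  have hcard : s.card = (2 * R + 1) ^ 2 := by
    rw [hs, Finset.card_product, Int.card_Icc, sq]
    have : ((R : ℤ) + 1 - -(R : ℤ)).toNat = 2 * R + 1 := by omega
    rw [this]
  rw [hcard]

lemma hfs_tf (R : ℕ) : Function.HasFiniteSupport (tf R) := by
  unfold Function.HasFiniteSupport
  refine Set.Finite.subset ((Finset.Icc (-(R : ℤ)) R) ×ˢ (Finset.Icc (-(R : ℤ)) R)).finite_toSet ?_
  intro v hv
  by_contra hc
  apply hv
  have : R ≤ nrm v := by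
    by_contra hc2
    push Not at hc2
    apply hc
    rw [Finset.mem_coe, Finset.mem_product, Finset.mem_Icc, Finset.mem_Icc]
    unfold nrm at hc2
    omega
  unfold tf
  exact prof_eq_zero this

end Pool.Agent.Lib.MP_01c081_pr
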