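import Mathlib
import Pool.Agent.Lib.MP_01c081_pr.Odo
import Pool.Agent.Lib.MP_01c081_pr.TestFn

set_option autoImplicit false
set_option linter.unusedSectionVars false
set_option linter.unusedSimpArgs false

open Filter Topology Finset MeasureTheory
open scoped ENNReal

namespace Pool.Agent.Lib.MP_01c081_pr

noncomputable local instance instMS : MeasurableSpace ℤ_[2] := borel _
local instance instBS : BorelSpace ℤ_[2] := ⟨rfl⟩

/-- Haar probability measure on the 2-adic integers -/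
noncomputable def mu : Measure ℤ_[2] := Measure.addHaarMeasure ⊤

lemma mu_univ : mu Set.univ = 1 := by
  have := Measure.addHaarMeasure_self (K₀ := (⊤ : TopologicalSpace.PositiveCompacts ℤ_[2]))
  simpa [mu] using this

instance : IsProbabilityMeasure mu := ⟨mu_univ⟩

instance : mu.IsAddLeftInvariant := by unfold mu; infer_instance

instance : mu.Regular := by unfold mu; infer_instance

/-- ball of centre `c` and radius `2^(-m)` -/
def ball (m : ℕ) (c : ℤ_[2]) : Set ℤ_[2] := {b | (2 : ℤ_[2]) ^ m ∣ b - c}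

lemma measurableSet_ball (m : ℕ) (c : ℤ_[2]) : MeasurableSet (ball m c) := by
  have : ball m c = {b | ‖b - c‖ ≤ (2 : ℝ) ^ (-(m : ℤ))} := by
    ext b
    have h := PadicInt.norm_le_pow_iff_mem_span_pow (p := 2) (b - c) m
    rw [Ideal.mem_span_singleton] at h
    push_cast at h
    exact h.symm
  rw [this]
  refine IsClosed.measurableSet ?_
  exact isClosed_le (by fun_prop) continuous_const

lemma mu_ball_eq (m : ℕ) (c : ℤ_[2]) : mu (ball m c) = mu (ball m 0) := by
  have h := measure_preimage_add mu (-c) (ball m 0)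
  rw [← h]
  congr 1
  ext b
  simp only [ball, Set.mem_ofPred_eq, Set.mem_preimage, sub_zero]
  rw [show -c + b = b - c by ring]

lemma mu_ball (m : ℕ) (c : ℤ_[2]) : mu (ball m c) = (2 ^ m : ℝ≥0∞)⁻¹ := by
  rw [mu_ball_eq]
  have hun : (⋃ r ∈ range (2 ^ m), ball m (r : ℤ_[2])) = Set.univ := by
    rw [Set.eq_univ_iff_forall]
    intro b
    simp only [Set.mem_iUnion]
    refine ⟨b.appr m, Finset.mem_range.2 (PadicInt.appr_lt b m), ?_⟩
    have := PadicInt.appr_spec m b
    rw [Ideal.mem_span_singleton] at this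
    simpa [ball] using this
  have hdisj : Set.PairwiseDisjoint ((range (2 ^ m) : Finset ℕ) : Set ℕ)
      (fun r : ℕ => ball m (r : ℤ_[2])) := by
    intro r hr s hs hrs
    rw [Function.onFun, Set.disjoint_left]
    intro b hb1 hb2
    rw [Finset.mem_coe, Finset.mem_range] at hr hs
    have h3 : (2 : ℤ_[2]) ^ m ∣ ((r : ℤ) - (s : ℤ) : ℤ) := by
      have := dvd_sub hb2 hb1
      push_cast
      rw [show b - (s : ℤ_[2]) - (b - r) = (r : ℤ_[2]) - s by ring] at this
      exact this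
    rw [dvd_int] at h3
    apply hrs
    have h4 := Int.eq_zero_of_abs_lt_dvd h3 (by
      rw [abs_lt]
      constructor
      · have : ((s : ℤ)) < 2 ^ m := by exact_mod_cast hs
        have h0 : (0 : ℤ) ≤ r := Int.natCast_nonneg r
        linarith
      · have : ((r : ℤ)) < 2 ^ m := by exact_mod_cast hr
        have h0 : (0 : ℤ) ≤ s := Int.natCast_nonneg s
        linarith)
    omega
  have h1 := measure_biUnion_finset (μ := mu) hdisj (fun r _ => measurableSet_ball m (r : ℤ_[2]))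
  rw [hun, mu_univ] at h1
  simp_rw [mu_ball_eq m] at h1
  rw [Finset.sum_const, card_range, nsmul_eq_mul] at h1
  push_cast at h1
  exact ENNReal.eq_inv_of_mul_eq_one_left (by rw [mul_comm]; exact h1.symm)

lemma measurableSet_G : MeasurableSet Gset := by
  have : Gset = ⋂ j : ℕ, ⋂ r : ℕ, {b | 0 < r → r < 2 ^ nE j → b ∉ ball (mE j) r} := by
    ext b
    simp [Gset, ball, Set.mem_iInter]
  rw [this]
  refine MeasurableSet.iInter fun j => MeasurableSet.iInter fun r => ?_
  by_cases h : 0 < r ∧ r < 2 ^ nE j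
  · have : {b : ℤ_[2] | 0 < r → r < 2 ^ nE j → b ∉ ball (mE j) r} = (ball (mE j) r)ᶜ := by
      ext b; simp [h.1, h.2]
    rw [this]
    exact (measurableSet_ball _ _).compl
  · have : {b : ℤ_[2] | 0 < r → r < 2 ^ nE j → b ∉ ball (mE j) r} = Set.univ := by
      rw [Set.eq_univ_iff_forall]
      intro b h1 h2
      exact absurd ⟨h1, h2⟩ h
    rw [this]
    exact MeasurableSet.univ

/-- translation -/
lemma measurable_addInt (n : ℤ) : Measurable (fun a : ℤ_[2] => a + (n : ℤ_[2])) :=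
  (continuous_id.add continuous_const).measurable

lemma measurable_conf : Measurable conf := by
  refine measurable_pi_lambda _ ?_
  intro v
  refine measurable_to_bool ?_
  have : (fun a => conf a v) ⁻¹' {true} = (fun a : ℤ_[2] => a + ((v.1 + v.2 : ℤ) : ℤ_[2])) ⁻¹' Gset := by
    ext a
    simp [conf]
  rw [this]
  exact (measurable_addInt _) measurableSet_G

/-- the point process -/
noncomputable def QQ : Measure Conf := mu.map conf

instance : IsProbabilityMeasure QQ := Measure.isProbabilityMeasure_map measurable_conf.aemeasurable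

lemma measurable_shift (x : ℤ × ℤ) : Measurable (shift x) :=
  measurable_pi_lambda _ fun y => measurable_pi_apply (x + y)

lemma ergodic_one : Ergodic (fun a : ℤ_[2] => 1 + a) mu := by
  refine ergodic_add_left_of_denseRange_zsmul ?_ mu
  have : (fun n : ℤ => n • (1 : ℤ_[2])) = Int.cast := by
    ext n; simp
  rw [this]
  exact PadicInt.denseRange_intCast

lemma shift_conf {x : ℤ × ℤ} (hx : x.1 + x.2 = 1) (a : ℤ_[2]) :
    shift x (conf a) = conf (1 + a) := by
  funext y
  simp only [shift, conf]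
  congr 1
  have : a + (((x + y).1 + (x + y).2 : ℤ) : ℤ_[2]) = 1 + a + ((y.1 + y.2 : ℤ) : ℤ_[2]) := by
    have h : (x + y).1 + (x + y).2 = 1 + (y.1 + y.2) := by
      simp only [Prod.fst_add, Prod.snd_add]; linarith
    rw [h]
    push_cast
    ring
  rw [this]

lemma ergodic_shift {x : ℤ × ℤ} (hx : x.1 + x.2 = 1) : Ergodic (shift x) QQ := by
  have hmp : MeasurePreserving conf mu QQ := ⟨measurable_conf, rfl⟩
  refine hmp.ergodic_of_ergodic_semiconj ergodic_one (measurable_shift x) ?_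
  intro a
  exact (shift_conf hx a).symm

lemma nE_sub_mE (j : ℕ) : nE j + (j + 3) ≤ mE j := by
  unfold nE mE
  have := lt_pow8 j
  have h : 8 ^ (j + 1) = 8 * 8 ^ j := by ring
  omega

/-- tail sums of the densities -/
lemma sum_density (J : ℕ) : ∑' j : ℕ, (if J ≤ j then (2 ^ nE j : ℝ≥0∞) * (2 ^ mE j : ℝ≥0∞)⁻¹ else 0)
    ≤ 4⁻¹ := by
  have h1 : ∀ j : ℕ, (if J ≤ j then (2 ^ nE j : ℝ≥0∞) * (2 ^ mE j : ℝ≥0∞)⁻¹ else 0) ≤
      2⁻¹ ^ (j + 3) := by
    intro j
    split_ifs
    · have h2 : (2 : ℝ≥0∞) ^ (nE j + (j + 3)) ≤ 2 ^ mE j := by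
        exact pow_le_pow_right₀ (by norm_num) (nE_sub_mE j)
      rw [← ENNReal.inv_pow]
      rw [← div_eq_mul_inv]
      rw [ENNReal.div_le_iff (by positivity) (by finiteness)]
      rw [mul_comm, ← div_eq_mul_inv, ENNReal.le_div_iff_mul_le (by left; positivity)
        (by left; finiteness)]
      rw [← pow_add]
      exact h2
    · exact zero_le
  refine (ENNReal.tsum_le_tsum h1).trans ?_
  have : ∀ j : ℕ, (2⁻¹ : ℝ≥0∞) ^ (j + 3) = 2⁻¹ ^ 3 * 2⁻¹ ^ j := by
    intro j; rw [pow_add, mul_comm]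
  rw [tsum_congr this]
  rw [ENNReal.tsum_mul_left, ENNReal.tsum_geometric]
  have : (1 - 2⁻¹ : ℝ≥0∞)⁻¹ = 2 := by
    rw [ENNReal.one_sub_inv_two, inv_inv]
  rw [this]
  rw [← ENNReal.inv_pow]
  have h8 : (2 : ℝ≥0∞) ^ 3 = 4 * 2 := by norm_num
  rw [h8, ENNReal.mul_inv (by norm_num) (by norm_num), mul_assoc,
    ENNReal.inv_mul_cancel (by norm_num) (by norm_num), mul_one]

lemma mu_compl_G_inter (J : ℕ) (S : Set ℤ_[2]) (c : ℝ≥0∞)
    (hS : ∀ j r : ℕ, 0 < r → r < 2 ^ nE j → j < J → S ∩ ball (mE j) r = ∅)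
    (hc : ∀ j, J ≤ j → ∑ r ∈ range (2 ^ nE j), mu (S ∩ ball (mE j) r) ≤
      c * ((2 ^ nE j : ℝ≥0∞) * (2 ^ mE j : ℝ≥0∞)⁻¹)) :
    mu (S ∩ Gsetᶜ) ≤ c * 4⁻¹ := by
  have hsub : S ∩ Gsetᶜ ⊆ ⋃ j : ℕ, (if J ≤ j then ⋃ r ∈ range (2 ^ nE j), S ∩ ball (mE j) r else ∅) := by
    rintro b ⟨hbS, hb⟩
    have : ∃ j r : ℕ, 0 < r ∧ r < 2 ^ nE j ∧ (2 : ℤ_[2]) ^ mE j ∣ b - r := by
      by_contra hc
      push Not at hc
      exact hb hc
    obtain ⟨j, r, h1, h2, h3⟩ := this
    rw [Set.mem_iUnion]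
    refine ⟨j, ?_⟩
    have hj : J ≤ j := by
      by_contra hcc
      push Not at hcc
      have := hS j r h1 h2 hcc
      have hmem : b ∈ S ∩ ball (mE j) r := ⟨hbS, h3⟩
      rw [this] at hmem
      exact hmem
    rw [if_pos hj]
    simp only [Set.mem_iUnion]
    exact ⟨r, Finset.mem_range.2 h2, hbS, h3⟩
  refine (measure_mono hsub).trans ?_
  refine (measure_iUnion_le _).trans ?_
  refine le_trans ?_ (mul_le_mul_right (sum_density J) c)
  rw [← ENNReal.tsum_mul_left]
  refine ENNReal.tsum_le_tsum ?_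
  intro j
  split_ifs with hj
  · exact (measure_biUnion_finset_le _ _).trans (hc j hj)
  · simp

lemma mu_G_compl : mu Gsetᶜ ≤ 4⁻¹ := by
  have := mu_compl_G_inter 0 Set.univ 1 (by intro j r _ _ h; omega) ?_
  · simpa using this
  · intro j _
    simp only [Set.univ_inter, mu_ball]
    rw [Finset.sum_const, card_range, nsmul_eq_mul, one_mul]
    push_cast
    exact le_rfl

lemma mu_G : (3 : ℝ≥0∞) / 4 ≤ mu Gset := by
  have h1 := prob_add_prob_compl (μ := mu) measurableSet_G
  have h2 := mu_G_compl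
  have h3 : (1 : ℝ≥0∞) ≤ mu Gset + 4⁻¹ := by rw [← h1]; gcongr
  have h4 : (1 : ℝ≥0∞) = 3 / 4 + 4⁻¹ := by
    rw [← one_div (4 : ℝ≥0∞), ENNReal.div_add_div_same]
    norm_num
    rw [ENNReal.div_self (by norm_num) (by norm_num)]
  rw [h4] at h3
  exact (ENNReal.add_le_add_iff_right (by norm_num)).1 h3

lemma null_singleton (c : ℤ_[2]) : mu {c} = 0 := by
  have h : ∀ m : ℕ, mu {c} ≤ (2⁻¹ : ℝ≥0∞) ^ m := by
    intro m
    rw [← ENNReal.inv_pow, ← mu_ball m c]
    refine measure_mono ?_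
    rintro _ rfl
    simp [ball]
  have hlim : Tendsto (fun m : ℕ => (2⁻¹ : ℝ≥0∞) ^ m) atTop (𝓝 0) :=
    ENNReal.tendsto_pow_atTop_nhds_zero_of_lt_one (by norm_num)
  exact le_antisymm (ge_of_tendsto' hlim h) zero_le

lemma ae_good : ∀ᵐ a ∂mu, Good a := by
  unfold Good
  rw [ae_all_iff]
  intro n
  rw [ae_iff]
  have : {a : ℤ_[2] | ¬ a + (n : ℤ_[2]) ≠ 0} = {-(n : ℤ_[2])} := by
    ext a
    simp only [ne_eq, not_not, Set.mem_ofPred_eq, Set.mem_singleton_iff]
    exact eq_neg_iff_add_eq_zero.symm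
  rw [this]
  exact null_singleton _

lemma measurable_gap (e : ℤ × ℤ) : Measurable (gap e) := by
  refine measurable_to_countable' ?_
  intro k
  have hm : ∀ x : ℤ × ℤ, ∀ b : Bool, MeasurableSet {ω : Conf | ω x = b} := by
    intro x b
    have h1 : Measurable (fun ω : Conf => ω x) := measurable_pi_apply x
    exact h1 (measurableSet_singleton b)
  have : gap e ⁻¹' {k} =
      ({ω : Conf | 0 < k ∧ ω ((k : ℤ) • e) = true} ∩
        ⋂ j ∈ Set.Iio k, {ω : Conf | ¬ (0 < j ∧ ω ((j : ℤ) • e) = true)}) ∪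
      (if k = 0 then ⋂ j : ℕ, {ω : Conf | ¬ (0 < j ∧ ω ((j : ℤ) • e) = true)} else ∅) := by
    ext ω
    simp only [Set.mem_preimage, Set.mem_singleton_iff, Set.mem_union, Set.mem_inter_iff,
      Set.mem_ofPred_eq, Set.mem_iInter, Set.mem_Iio]
    constructor
    · intro h
      by_cases hne : {k : ℕ | 0 < k ∧ ω ((k : ℤ) • e) = true}.Nonempty
      · left
        have h1 := Nat.sInf_mem hne
        have h2 : gap e ω ∈ {k : ℕ | 0 < k ∧ ω ((k : ℤ) • e) = true} := h1
        rw [h] at h2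
        refine ⟨h2, ?_⟩
        intro j hj hj2
        rw [← h] at hj
        exact Nat.notMem_of_lt_sInf hj hj2
      · right
        rw [Set.not_nonempty_iff_eq_empty] at hne
        have h0 : gap e ω = 0 := by unfold gap; rw [hne]; simp
        rw [h0] at h
        rw [if_pos h.symm]
        simp only [Set.mem_iInter, Set.mem_ofPred_eq]
        intro j hj
        have : j ∈ {k : ℕ | 0 < k ∧ ω ((k : ℤ) • e) = true} := hj
        rw [hne] at this
        exact this
    · rintro (⟨h1, h2⟩ | h)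
      · apply le_antisymm
        · exact Nat.sInf_le h1
        · by_contra hc
          push Not at hc
          have hne : {k : ℕ | 0 < k ∧ ω ((k : ℤ) • e) = true}.Nonempty := ⟨k, h1⟩
          exact h2 _ hc (Nat.sInf_mem hne)
      · split_ifs at h with h0
        · simp only [Set.mem_iInter, Set.mem_ofPred_eq] at h
          rw [h0]
          unfold gap
          have : {k : ℕ | 0 < k ∧ ω ((k : ℤ) • e) = true} = ∅ := by
            rw [Set.eq_empty_iff_forall_notMem]
            intro j hj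
            exact h j hj
          rw [this]; simp
        · exact absurd h (Set.notMem_empty _)
  rw [this]
  have hm2 : ∀ j : ℕ, MeasurableSet {ω : Conf | 0 < j ∧ ω ((j : ℤ) • e) = true} := by
    intro j
    by_cases hj : 0 < j
    · simp only [hj, true_and]; exact hm _ _
    · simp only [hj, false_and]; exact MeasurableSet.const _
  refine MeasurableSet.union ((hm2 k).inter (MeasurableSet.biInter (Set.to_countable _)
    fun j _ => (hm2 j).compl)) ?_
  split_ifs
  · exact MeasurableSet.iInter fun j => (hm2 j).compl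
  · exact MeasurableSet.empty

lemma measurable_nextPt (e v : ℤ × ℤ) : Measurable (fun ω : Conf => nextPt ω e v) := by
  have h1 : Measurable (fun ω : Conf => gap e (shift v ω)) :=
    (measurable_gap e).comp (measurable_shift v)
  have h2 : Measurable (fun k : ℕ => v + (k : ℤ) • e) := measurable_of_countable _
  exact h2.comp h1

lemma measurable_energy (h : ℤ × ℤ → ℝ) : Measurable (fun ω => energy ω h) := by
  unfold energy
  refine Measurable.ennreal_tsum fun v => ?_
  have h0 : Measurable (fun ω : Conf => ω v) := measurable_pi_apply v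
  refine Measurable.ite (h0 (measurableSet_singleton true)) ?_ measurable_const
  have h1 : ∀ e : ℤ × ℤ, Measurable (fun ω : Conf => ENNReal.ofReal ((h v - h (nextPt ω e v)) ^ 2)) := by
    intro e
    have h2 : Measurable (fun w : ℤ × ℤ => ENNReal.ofReal ((h v - h w) ^ 2)) :=
      measurable_of_countable _
    exact h2.comp (measurable_nextPt e v)
  exact (h1 _).add (h1 _)

/-- bound for the square of a jump -/
lemma jump_bound {a : ℤ_[2]} (ha : Good a) (h : ℤ × ℤ → ℝ) {e : ℤ × ℤ} (he : e.1 + e.2 = 1)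
    (v : ℤ × ℤ) (hv : conf a v = true) :
    ENNReal.ofReal ((h v - h (nextPt (conf a) e v)) ^ 2) ≤
      ENNReal.ofReal ((h v - h (v + ((1 : ℕ) : ℤ) • e)) ^ 2) +
      ∑' j : ℕ, (ball (mE j) (-((v.1 + v.2 : ℤ) : ℤ_[2]))).indicator
        (fun _ => ENNReal.ofReal ((h v - h (v + ((2 ^ nE j : ℕ) : ℤ) • e)) ^ 2)) a := by
  rcases gap_conf ha he hv with hg | ⟨J, hJ, hg⟩
  · unfold nextPt
    rw [hg]
    exact le_self_add
  · unfold nextPt
    rw [hg]
    refine le_trans ?_ le_add_self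
    refine le_trans ?_ (ENNReal.le_tsum J)
    rw [Set.indicator_of_mem]
    simp only [ball, Set.mem_ofPred_eq, sub_neg_eq_add]
    exact hJ

/-- expected energy bound -/
lemma lintegral_energy (h : ℤ × ℤ → ℝ) :
    ∫⁻ a, energy (conf a) h ∂mu ≤
      (DN h (1, 0) 1 + ∑' j : ℕ, (2 ^ mE j : ℝ≥0∞)⁻¹ * DN h (1, 0) (2 ^ nE j)) +
      (DN h (0, 1) 1 + ∑' j : ℕ, (2 ^ mE j : ℝ≥0∞)⁻¹ * DN h (0, 1) (2 ^ nE j)) := by
  set F : ℤ × ℤ → ℤ × ℤ → ℤ_[2] → ℝ≥0∞ := fun e v a =>
    ENNReal.ofReal ((h v - h (v + ((1 : ℕ) : ℤ) • e)) ^ 2) +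
      ∑' j : ℕ, (ball (mE j) (-((v.1 + v.2 : ℤ) : ℤ_[2]))).indicator
        (fun _ => ENNReal.ofReal ((h v - h (v + ((2 ^ nE j : ℕ) : ℤ) • e)) ^ 2)) a with hF
  have hFm : ∀ e v, Measurable (F e v) := by
    intro e v
    refine measurable_const.add (Measurable.ennreal_tsum fun j => ?_)
    exact measurable_const.indicator (measurableSet_ball _ _)
  have hFi : ∀ e v, ∫⁻ a, F e v a ∂mu = ENNReal.ofReal ((h v - h (v + ((1 : ℕ) : ℤ) • e)) ^ 2) +
      ∑' j : ℕ, (2 ^ mE j : ℝ≥0∞)⁻¹ * ENNReal.ofReal ((h v - h (v + ((2 ^ nE j : ℕ) : ℤ) • e)) ^ 2) := by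
    intro e v
    simp only [hF]
    rw [lintegral_add_left measurable_const, lintegral_const, mu_univ, mul_one,
      lintegral_tsum (fun j => (measurable_const.indicator (measurableSet_ball _ _)).aemeasurable)]
    congr 1
    refine tsum_congr fun j => ?_
    rw [lintegral_indicator_const (measurableSet_ball _ _), mu_ball, mul_comm]
  have hle : ∀ᵐ a ∂mu, energy (conf a) h ≤ ∑' v : ℤ × ℤ, (F (1, 0) v a + F (0, 1) v a) := by
    filter_upwards [ae_good] with a ha
    unfold energy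
    refine ENNReal.tsum_le_tsum fun v => ?_
    split_ifs with hv
    · exact add_le_add (jump_bound ha h (by norm_num) v hv) (jump_bound ha h (by norm_num) v hv)
    · exact zero_le
  refine (lintegral_mono_ae hle).trans ?_
  rw [lintegral_tsum (f := fun v a => F (1, 0) v a + F (0, 1) v a)
    (fun v => ((hFm (1, 0) v).add (hFm (0, 1) v)).aemeasurable)]
  have e1 : ∀ v, ∫⁻ a, (F (1, 0) v a + F (0, 1) v a) ∂mu = ∫⁻ a, F (1, 0) v a ∂mu +
      ∫⁻ a, F (0, 1) v a ∂mu := fun v => lintegral_add_left (hFm _ v) _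
  simp_rw [e1, hFi]
  rw [ENNReal.tsum_add, ENNReal.tsum_add, ENNReal.tsum_add]
  have e2 : ∀ e : ℤ × ℤ, ∑' (v : ℤ × ℤ), ∑' (j : ℕ), (2 ^ mE j : ℝ≥0∞)⁻¹ *
      ENNReal.ofReal ((h v - h (v + ((2 ^ nE j : ℕ) : ℤ) • e)) ^ 2) =
      ∑' j : ℕ, (2 ^ mE j : ℝ≥0∞)⁻¹ * DN h e (2 ^ nE j) := by
    intro e
    rw [ENNReal.tsum_comm]
    refine tsum_congr fun j => ?_
    rw [ENNReal.tsum_mul_left]
    rfl
  rw [e2, e2]
  exact le_rfl

end Pool.Agent.Lib.MP_01c081_pr
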