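import Mathlib
import Pool.Agent.Lib.MP_01c081_pr.Meas

set_option autoImplicit false
set_option linter.unusedSectionVars false
set_option linter.unusedSimpArgs false

open Filter Topology Finset MeasureTheory
open scoped ENNReal NNReal

namespace Pool.Agent.Lib.MP_01c081_pr

noncomputable local instance instMS' : MeasurableSpace ℤ_[2] := borel _
local instance instBS' : BorelSpace ℤ_[2] := ⟨rfl⟩

lemma half_le_Hm (k : ℕ) : (k : ℝ) / 2 ≤ Hm (2 ^ k) := by
  induction k with
  | zero => simpa using Hm_nonneg _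
  | succ k ih =>
    have h1 : Hm (2 ^ (k + 1)) = Hm (2 ^ k) + ∑ i ∈ Finset.Ico (2 ^ k : ℕ) (2 ^ (k + 1)), (1 : ℝ) / (i + 1) := by
      unfold Hm
      rw [Finset.sum_range_add_sum_Ico]
      exact Nat.pow_le_pow_right (by norm_num) (by omega)
    have h2 : (1 : ℝ) / 2 ≤ ∑ i ∈ Finset.Ico (2 ^ k : ℕ) (2 ^ (k + 1)), (1 : ℝ) / (i + 1) := by
      have h3 : ∀ i ∈ Finset.Ico (2 ^ k : ℕ) (2 ^ (k + 1)),
          (1 : ℝ) / 2 ^ (k + 1) ≤ (1 : ℝ) / (i + 1) := by
        intro i hi
        rw [Finset.mem_Ico] at hi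
        apply one_div_le_one_div_of_le
        · positivity
        · have : i + 1 ≤ 2 ^ (k + 1) := hi.2
          exact_mod_cast this
      have h4 := Finset.card_nsmul_le_sum _ _ _ h3
      rw [Nat.card_Ico, nsmul_eq_mul] at h4
      refine le_trans (le_of_eq ?_) h4
      have : 2 ^ (k + 1) - 2 ^ k = 2 ^ k := by rw [pow_succ]; omega
      rw [this]
      push_cast
      rw [pow_succ]
      field_simp
    rw [h1]
    push_cast
    linarith

/-- radii of the test functions -/
def Rad (J : ℕ) : ℕ := 2 ^ (8 ^ (J + 1))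

lemma one_le_Rad (J : ℕ) : 1 ≤ Rad J := Nat.one_le_two_pow

lemma two_nE (j : ℕ) : 2 * nE j = mE j + j := by
  unfold nE mE
  have := lt_pow8 j
  have h : 8 ^ (j + 1) = 8 * 8 ^ j := by ring
  omega

lemma tail_bound (J j : ℕ) (h : J < j) :
    (2 ^ mE j : ℝ≥0∞)⁻¹ * (4 * ((2 * Rad J + 1) ^ 2 : ℕ)) ≤ 2⁻¹ ^ (J + 1) * 2⁻¹ ^ j := by
  have hexp : 2 * 8 ^ (J + 1) + 6 + (J + 1 + j) ≤ mE j := by
    unfold mE
    have h1 : 8 ^ (J + 1) ≤ 8 ^ j := Nat.pow_le_pow_right (by norm_num) h
    have h2 := lt_pow8 j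
    have h3 : 8 ^ (j + 1) = 8 * 8 ^ j := by ring
    have h4 : 8 ≤ 8 ^ j := by
      calc 8 = 8 ^ 1 := by norm_num
        _ ≤ 8 ^ j := Nat.pow_le_pow_right (by norm_num) (by omega)
    omega
  have hnat : 4 * (2 * Rad J + 1) ^ 2 ≤ 2 ^ (2 * 8 ^ (J + 1) + 6) := by
    have h1 : 2 * Rad J + 1 ≤ 4 * Rad J := by have := one_le_Rad J; omega
    calc 4 * (2 * Rad J + 1) ^ 2 ≤ 4 * (4 * Rad J) ^ 2 := by gcongr
      _ = 2 ^ (2 * 8 ^ (J + 1) + 6) := by
        unfold Rad
        generalize 8 ^ (J + 1) = K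
        rw [mul_pow, ← pow_mul, mul_comm K 2, pow_add]
        norm_num
        ring
  have hle : (4 * ((2 * Rad J + 1) ^ 2 : ℕ) : ℝ≥0∞) ≤ 2 ^ (2 * 8 ^ (J + 1) + 6) := by
    exact_mod_cast hnat
  calc (2 ^ mE j : ℝ≥0∞)⁻¹ * (4 * ((2 * Rad J + 1) ^ 2 : ℕ))
      ≤ (2 ^ (2 * 8 ^ (J + 1) + 6 + (J + 1 + j)) : ℝ≥0∞)⁻¹ * 2 ^ (2 * 8 ^ (J + 1) + 6) := by
        apply mul_le_mul' _ hle
        apply ENNReal.inv_le_inv.2
        exact pow_le_pow_right₀ (by norm_num) hexp
    _ = 2⁻¹ ^ (J + 1) * 2⁻¹ ^ j := by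
        rw [pow_add 2 (2 * 8 ^ (J + 1) + 6), ENNReal.mul_inv (by left; positivity)
          (by left; finiteness), mul_comm, ← mul_assoc, ENNReal.mul_inv_cancel (by positivity)
          (by finiteness), one_mul, pow_add, ENNReal.mul_inv (by left; positivity)
          (by left; finiteness), ENNReal.inv_pow, ENNReal.inv_pow]

lemma geo (J : ℕ) : ∑ j ∈ range (J + 1), (2 : ℝ≥0∞) ^ j ≤ 2 ^ (J + 1) := by
  have h : ∑ j ∈ range (J + 1), 2 ^ j ≤ 2 ^ (J + 1) := by
    have := Nat.geomSum_lt (m := 2) (n := J + 1) (s := range (J + 1)) le_rfl (by simp)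
    exact this.le
  exact_mod_cast h

lemma dir_bound (J : ℕ) {e : ℤ × ℤ} (he : e = (1, 0) ∨ e = (0, 1)) :
    DN (tf (Rad J)) e 1 + ∑' j : ℕ, (2 ^ mE j : ℝ≥0∞)⁻¹ * DN (tf (Rad J)) e (2 ^ nE j) ≤
      10 * 2⁻¹ ^ J := by
  set D := DN (tf (Rad J)) e 1 with hD
  have hterm : ∀ j : ℕ, (2 ^ mE j : ℝ≥0∞)⁻¹ * DN (tf (Rad J)) e (2 ^ nE j) ≤
      (if j ∈ range (J + 1) then 2 ^ j * D else 0) + 2⁻¹ ^ (J + 1) * 2⁻¹ ^ j := by
    intro j
    by_cases hj : j ∈ range (J + 1)
    · rw [if_pos hj]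
      refine le_trans ?_ le_self_add
      calc (2 ^ mE j : ℝ≥0∞)⁻¹ * DN (tf (Rad J)) e (2 ^ nE j)
          ≤ (2 ^ mE j : ℝ≥0∞)⁻¹ * (((2 ^ nE j : ℕ) : ℝ≥0∞) ^ 2 * D) := by
            gcongr
            exact DN_le_sq _ _ _
        _ = 2 ^ j * D := by
            rw [← mul_assoc]
            congr 1
            push_cast
            rw [← pow_mul, mul_comm (nE j) 2, two_nE, pow_add, ← mul_assoc,
              ENNReal.inv_mul_cancel (by positivity) (by finiteness), one_mul]
    · rw [if_neg hj, zero_add]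
      have hj' : J < j := by simpa using hj
      refine le_trans ?_ (tail_bound J j hj')
      gcongr
      refine (DN_le_mass _ _ _).trans ?_
      gcongr
      exact mass_tf (one_le_Rad J)
  have h1 : ∑' j : ℕ, (2 ^ mE j : ℝ≥0∞)⁻¹ * DN (tf (Rad J)) e (2 ^ nE j) ≤
      2 ^ (J + 1) * D + 2⁻¹ ^ J := by
    refine (ENNReal.tsum_le_tsum hterm).trans ?_
    rw [ENNReal.tsum_add]
    apply add_le_add
    · rw [tsum_eq_sum (s := range (J + 1)) (by intro j hj; rw [if_neg hj])]
      rw [Finset.sum_congr rfl (fun j hj => if_pos hj), ← Finset.sum_mul]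
      gcongr
      exact geo J
    · rw [ENNReal.tsum_mul_left, ENNReal.tsum_geometric, ENNReal.one_sub_inv_two, inv_inv,
        pow_succ, mul_assoc, ENNReal.inv_mul_cancel (by norm_num) (by norm_num), mul_one]
  have h2 : D ≤ ENNReal.ofReal (18 / 8 ^ (J + 1)) := by
    refine (DN_tf_one (one_le_Rad J) he).trans ?_
    apply ENNReal.ofReal_le_ofReal
    have h3 := half_le_Hm (8 ^ (J + 1))
    have h4 : (0 : ℝ) < 8 ^ (J + 1) := by positivity
    have h5 : Hm (Rad J) = Hm (2 ^ 8 ^ (J + 1)) := rfl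
    rw [h5]
    push_cast at h3
    calc 9 / Hm (2 ^ 8 ^ (J + 1)) ≤ 9 / ((8 : ℝ) ^ (J + 1) / 2) := by
          apply div_le_div_of_nonneg_left (by norm_num) (by positivity) h3
      _ = 18 / 8 ^ (J + 1) := by field_simp; norm_num
  have h6 : (1 + 2 ^ (J + 1)) * D ≤ 9 * 2⁻¹ ^ J := by
    have h7 : (1 + 2 ^ (J + 1) : ℝ≥0∞) ≤ 2 ^ (J + 2) := by
      have : 1 + 2 ^ (J + 1) ≤ 2 ^ (J + 2) := by
        have h8 : 1 ≤ 2 ^ (J + 1) := Nat.one_le_two_pow
        have h9 : 2 ^ (J + 2) = 2 * 2 ^ (J + 1) := by ring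
        omega
      exact_mod_cast this
    calc (1 + 2 ^ (J + 1)) * D ≤ 2 ^ (J + 2) * ENNReal.ofReal (18 / 8 ^ (J + 1)) :=
          mul_le_mul' h7 h2
      _ = ENNReal.ofReal (2 ^ (J + 2) * (18 / 8 ^ (J + 1))) := by
          rw [ENNReal.ofReal_mul (by positivity), ENNReal.ofReal_pow (by norm_num)]
          norm_num
      _ ≤ ENNReal.ofReal (9 * (2⁻¹) ^ J) := by
          apply ENNReal.ofReal_le_ofReal
          have e1 : (2 : ℝ) ^ (J + 2) * (18 / 8 ^ (J + 1)) = 9 * (4⁻¹) ^ J := by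
            have h8 : (8 : ℝ) ^ J = 2 ^ J * 4 ^ J := by rw [← mul_pow]; norm_num
            rw [pow_add, pow_succ 8 J, h8, inv_pow]
            field_simp
            norm_num
          rw [e1]
          apply mul_le_mul_of_nonneg_left _ (by norm_num)
          apply pow_le_pow_left₀ (by norm_num)
          norm_num
      _ = 9 * 2⁻¹ ^ J := by
          rw [ENNReal.ofReal_mul (by norm_num), ENNReal.ofReal_pow (by norm_num),
            ENNReal.ofReal_inv_of_pos (by norm_num)]
          norm_num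
  calc D + ∑' j : ℕ, (2 ^ mE j : ℝ≥0∞)⁻¹ * DN (tf (Rad J)) e (2 ^ nE j)
      ≤ D + (2 ^ (J + 1) * D + 2⁻¹ ^ J) := by gcongr
    _ = (1 + 2 ^ (J + 1)) * D + 2⁻¹ ^ J := by ring
    _ ≤ 9 * 2⁻¹ ^ J + 2⁻¹ ^ J := by gcongr
    _ = 10 * 2⁻¹ ^ J := by ring

lemma ae_liminf : ∀ᵐ a ∂mu, liminf (fun J => energy (conf a) (tf (Rad J))) atTop = 0 := by
  have hm : ∀ J, Measurable (fun a => energy (conf a) (tf (Rad J))) := fun J =>
    (measurable_energy _).comp measurable_conf
  have h1 : ∫⁻ a, liminf (fun J => energy (conf a) (tf (Rad J))) atTop ∂mu = 0 := by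
    refine le_antisymm ?_ zero_le
    refine (lintegral_liminf_le hm).trans ?_
    have h2 : ∀ J, ∫⁻ a, energy (conf a) (tf (Rad J)) ∂mu ≤ 20 * 2⁻¹ ^ J := by
      intro J
      refine (lintegral_energy _).trans ?_
      refine (add_le_add (dir_bound J (Or.inl rfl)) (dir_bound J (Or.inr rfl))).trans ?_
      rw [← add_mul]
      norm_num
    have h3 : Tendsto (fun J : ℕ => (20 : ℝ≥0∞) * 2⁻¹ ^ J) atTop (𝓝 0) := by
      have := ENNReal.Tendsto.const_mul (a := 20) (ENNReal.tendsto_pow_atTop_nhds_zero_of_lt_one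
        (r := 2⁻¹) (by norm_num)) (Or.inr (by norm_num))
      simpa using this
    calc liminf (fun J => ∫⁻ a, energy (conf a) (tf (Rad J)) ∂mu) atTop
        ≤ liminf (fun J : ℕ => (20 : ℝ≥0∞) * 2⁻¹ ^ J) atTop := liminf_le_liminf
          (Eventually.of_forall h2)
      _ = 0 := h3.liminf_eq
  rw [lintegral_eq_zero_iff (Measurable.liminf hm)] at h1
  exact h1

lemma measurableSet_ok (e : ℤ × ℤ) : MeasurableSet {ω : Conf | Ok ω e} := by
  have hm : ∀ x : ℤ × ℤ, MeasurableSet {ω : Conf | ω x = true} := by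
    intro x
    have h1 : Measurable (fun ω : Conf => ω x) := measurable_pi_apply x
    exact h1 (measurableSet_singleton true)
  have : {ω : Conf | Ok ω e} = ⋂ v : ℤ × ℤ, ({ω : Conf | ω v = true}ᶜ ∪
      ⋃ k : ℕ, {ω : Conf | 0 < k ∧ ω (v + (k : ℤ) • e) = true}) := by
    ext ω
    simp only [Ok, Set.mem_ofPred_eq, Set.mem_iInter, Set.mem_union, Set.mem_compl_iff,
      Set.mem_iUnion]
    constructor
    · intro h v
      by_cases hv : ω v = true
      · right; exact h v hv
      · left; exact hv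
    · intro h v hv
      rcases h v with h | h
      · exact absurd hv h
      · exact h
  rw [this]
  refine MeasurableSet.iInter fun v => (hm v).compl.union (MeasurableSet.iUnion fun k => ?_)
  by_cases hk : 0 < k
  · simp only [hk, true_and]; exact hm _
  · simp only [hk, false_and]; exact MeasurableSet.const _

lemma conf_origin : conf ⁻¹' origin = Gset := by
  ext a
  simp [origin, conf]

lemma measurableSet_origin : MeasurableSet origin := by
  have h1 : Measurable (fun ω : Conf => ω 0) := measurable_pi_apply 0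
  exact h1 (measurableSet_singleton true)

lemma QQ_origin : QQ origin = mu Gset := by
  unfold QQ
  rw [Measure.map_apply measurable_conf measurableSet_origin, conf_origin]

theorem recurrent_QQ : Recurrent QQ := by
  unfold Recurrent palm ProbabilityTheory.cond
  refine Measure.ae_smul_measure ?_ _
  rw [ae_restrict_iff' measurableSet_origin]
  have key : ∀ᵐ ω ∂QQ, (∀ d, Ok ω (dir d)) ∧
      liminf (fun J => energy ω (tf (Rad J))) atTop = 0 := by
    unfold QQ
    rw [ae_map_iff measurable_conf.aemeasurable]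
    · filter_upwards [ae_good, ae_liminf] with a ha hl
      exact ⟨fun d => ok_dir ha d, hl⟩
    · have e1 : {ω : Conf | (∀ d, Ok ω (dir d)) ∧ liminf (fun J => energy ω (tf (Rad J))) atTop = 0}
          = (⋂ d, {ω : Conf | Ok ω (dir d)}) ∩
            (fun ω : Conf => liminf (fun J => energy ω (tf (Rad J))) atTop) ⁻¹' {0} := by
        ext ω
        simp [Set.mem_iInter]
      rw [e1]
      refine (MeasurableSet.iInter fun d => measurableSet_ok _).inter ?_
      exact (Measurable.liminf fun J => measurable_energy _) (measurableSet_singleton 0)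
  filter_upwards [key] with ω hω h0
  refine returns h0 hω.1 ?_
  intro ε hε
  have h1 : liminf (fun J => energy ω (tf (Rad J))) atTop < ENNReal.ofReal ε := by
    rw [hω.2]; exact ENNReal.ofReal_pos.2 hε
  obtain ⟨J, hJ⟩ := (frequently_lt_of_liminf_lt (by isBoundedDefault) h1).exists
  exact ⟨tf (Rad J), hfs_tf _, tf_zero (one_le_Rad J), hJ.le⟩

theorem isPointProcess_QQ : IsPointProcess QQ where
  isProbabilityMeasure := inferInstance
  ergodic_fst := ergodic_shift (by norm_num)
  ergodic_snd := ergodic_shift (by norm_num)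
  nonempty := by
    have h1 : {ω : Conf | ∀ x, ω x = false} ⊆ originᶜ := by
      intro ω hω hc
      have h2 := hω 0
      have h3 : ω 0 = true := hc
      rw [h2] at h3
      exact absurd h3 (by simp)
    refine lt_of_le_of_lt (measure_mono h1) ?_
    rw [prob_compl_eq_one_sub measurableSet_origin, QQ_origin]
    refine ENNReal.sub_lt_self (by norm_num) (by norm_num) ?_
    have := mu_G
    intro h
    rw [h] at this
    simp at this

lemma mu_G_pos : mu Gset ≠ 0 := by
  have := mu_G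
  intro h
  rw [h] at this
  simp at this

/-- upper bound of the mean gap -/
lemma mean_gap {e : ℤ × ℤ} (he : e.1 + e.2 = 1) :
    ∫⁻ ω, (gap e ω : ℝ≥0∞) ∂(palm QQ) ≤ 2 := by
  unfold palm ProbabilityTheory.cond
  rw [lintegral_smul_measure, QQ_origin]
  have hmg : Measurable (fun ω : Conf => (gap e ω : ℝ≥0∞)) :=
    (measurable_of_countable (fun n : ℕ => (n : ℝ≥0∞))).comp (measurable_gap e)
  have h1 : ∫⁻ ω in origin, (gap e ω : ℝ≥0∞) ∂QQ = ∫⁻ a in Gset, (gap e (conf a) : ℝ≥0∞) ∂mu := by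
    unfold QQ
    rw [setLIntegral_map measurableSet_origin hmg measurable_conf, conf_origin]
  rw [h1]
  have h2 : ∫⁻ a in Gset, (gap e (conf a) : ℝ≥0∞) ∂mu ≤ 5 / 4 := by
    have h3 : ∫⁻ a in Gset, (gap e (conf a) : ℝ≥0∞) ∂mu ≤
        ∫⁻ a, (1 + ∑' j : ℕ, (ball (mE j) 0).indicator (fun _ => (2 ^ nE j : ℝ≥0∞)) a) ∂mu := by
      rw [← lintegral_indicator measurableSet_G]
      refine lintegral_mono_ae ?_
      filter_upwards [ae_good] with a ha
      by_cases haG : a ∈ Gset
      · rw [Set.indicator_of_mem haG]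
        have hv : conf a 0 = true := by
          rw [conf_true]; simpa using haG
        have hs : shift 0 (conf a) = conf a := by
          funext y; simp [shift]
        rcases gap_conf ha he hv with hg | ⟨J, hJ, hg⟩
        · rw [hs] at hg; rw [hg]; simp
        · rw [hs] at hg; rw [hg]
          refine le_trans ?_ le_add_self
          refine le_trans ?_ (ENNReal.le_tsum J)
          rw [Set.indicator_of_mem]
          · push_cast; exact le_rfl
          · simp only [ball, Set.mem_ofPred_eq, sub_zero]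
            simpa using hJ
      · rw [Set.indicator_of_notMem haG]
        exact zero_le
    refine h3.trans ?_
    rw [lintegral_add_left measurable_const, lintegral_const, mu_univ, mul_one,
      lintegral_tsum (fun j => (measurable_const.indicator (measurableSet_ball _ _)).aemeasurable)]
    simp_rw [lintegral_indicator_const (measurableSet_ball _ _), mu_ball]
    have h4 := sum_density 0
    simp only [zero_le, if_true] at h4
    refine (add_le_add le_rfl h4).trans ?_
    rw [← one_div, ENNReal.le_div_iff_mul_le (by norm_num) (by norm_num), add_mul,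
      ENNReal.div_mul_cancel (by norm_num) (by norm_num)]
    norm_num
  calc (mu Gset)⁻¹ • ∫⁻ a in Gset, (gap e (conf a) : ℝ≥0∞) ∂mu ≤ (3 / 4 : ℝ≥0∞)⁻¹ * (5 / 4) := by
        rw [smul_eq_mul]
        exact mul_le_mul' (ENNReal.inv_le_inv.2 mu_G) h2
    _ ≤ 2 := by
        have e1 : (3 / 4 : ℝ≥0∞) = ENNReal.ofReal (3 / 4) := by
          rw [ENNReal.ofReal_div_of_pos (by norm_num)]; norm_num
        have e2 : (5 / 4 : ℝ≥0∞) = ENNReal.ofReal (5 / 4) := by
          rw [ENNReal.ofReal_div_of_pos (by norm_num)]; norm_num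
        have e3 : (2 : ℝ≥0∞) = ENNReal.ofReal 2 := by norm_num
        rw [e1, e2, e3, ← ENNReal.ofReal_inv_of_pos (by norm_num), ← ENNReal.ofReal_mul (by norm_num)]
        apply ENNReal.ofReal_le_ofReal
        norm_num

end Pool.Agent.Lib.MP_01c081_pr
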