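import Mathlib
import Pool.Agent.Lib.MP_01c081_pr.Final

set_option autoImplicit false
set_option linter.unusedSectionVars false
set_option linter.unusedSimpArgs false

open Filter Topology Finset MeasureTheory
open scoped ENNReal NNReal

namespace Pool.Agent.Lib.MP_01c081_pr

noncomputable local instance instMS'' : MeasurableSpace ℤ_[2] := borel _
local instance instBS'' : BorelSpace ℤ_[2] := ⟨rfl⟩

lemma mem_ball_zero {m : ℕ} {b : ℤ_[2]} : b ∈ ball m 0 ↔ (2 : ℤ_[2]) ^ m ∣ b := by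
  simp [ball]

/-- most of the multiples of `2 ^ mE J` are allowed -/
lemma mu_bad (J : ℕ) : mu (ball (mE J) 0 ∩ Gsetᶜ) ≤ (2 ^ mE J : ℝ≥0∞)⁻¹ * 4⁻¹ := by
  refine mu_compl_G_inter (J + 1) (ball (mE J) 0) _ ?_ ?_
  · intro j r hr hr2 hj
    rw [Set.eq_empty_iff_forall_notMem]
    rintro b ⟨h1, h2⟩
    rw [mem_ball_zero] at h1
    have h3 : (2 : ℤ_[2]) ^ mE j ∣ b := (dvd_mono (mE_mono (by omega))).trans h1
    have h4 : (2 : ℤ_[2]) ^ mE j ∣ (r : ℤ_[2]) := by
      have := dvd_sub h3 h2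
      simpa using this
    exact not_dvd_of_lt hr (hr2.trans (Nat.pow_lt_pow_right (by norm_num) (nE_lt_mE j))) h4
  · intro j hj
    have hJj : mE J ≤ nE j := mE_le_nE (by omega)
    have hJj2 : mE J ≤ mE j := hJj.trans (nE_lt_mE j).le
    have h1 : ∀ r ∈ range (2 ^ nE j), mu (ball (mE J) 0 ∩ ball (mE j) (r : ℤ_[2])) ≤
        if 2 ^ mE J ∣ r then (2 ^ mE j : ℝ≥0∞)⁻¹ else 0 := by
      intro r _
      split_ifs with hr
      · rw [← mu_ball (mE j) (r : ℤ_[2])]
        exact measure_mono Set.inter_subset_right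
      · have : ball (mE J) 0 ∩ ball (mE j) (r : ℤ_[2]) = ∅ := by
          rw [Set.eq_empty_iff_forall_notMem]
          rintro b ⟨h1, h2⟩
          rw [mem_ball_zero] at h1
          apply hr
          rw [← dvd_nat]
          have := dvd_sub h1 ((dvd_mono hJj2).trans h2)
          simpa using this
        rw [this, measure_empty]
    refine (Finset.sum_le_sum h1).trans ?_
    rw [← Finset.sum_filter, Finset.sum_const, nsmul_eq_mul]
    have hcard : (filter (fun r => 2 ^ mE J ∣ r) (range (2 ^ nE j))).card ≤ 2 ^ (nE j - mE J) := by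
      have hsub : filter (fun r => 2 ^ mE J ∣ r) (range (2 ^ nE j)) ⊆
          (range (2 ^ (nE j - mE J))).image (fun k => 2 ^ mE J * k) := by
        intro r hr
        rw [Finset.mem_filter, Finset.mem_range] at hr
        obtain ⟨hr1, c, rfl⟩ := hr
        rw [Finset.mem_image]
        refine ⟨c, ?_, rfl⟩
        rw [Finset.mem_range]
        have : 2 ^ nE j = 2 ^ mE J * 2 ^ (nE j - mE J) := by rw [← pow_add]; congr 1; omega
        rw [this] at hr1
        exact lt_of_mul_lt_mul_left hr1 (Nat.zero_le _)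
      refine (Finset.card_le_card hsub).trans ?_
      refine Finset.card_image_le.trans ?_
      rw [card_range]
    have h2 : (((filter (fun r => 2 ^ mE J ∣ r) (range (2 ^ nE j))).card : ℕ) : ℝ≥0∞) ≤
        2 ^ (nE j - mE J) := by exact_mod_cast hcard
    refine (mul_le_mul' h2 le_rfl).trans ?_
    rw [← mul_assoc]
    apply mul_le_mul' _ le_rfl
    have h3 : (2 : ℝ≥0∞) ^ nE j = 2 ^ mE J * 2 ^ (nE j - mE J) := by
      rw [← pow_add]; congr 1; omega
    rw [h3, ← mul_assoc, ENNReal.inv_mul_cancel (by positivity) (by finiteness), one_mul]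

lemma mE_succ_ge (J : ℕ) : mE J + 2 ≤ mE (J + 1) := by
  unfold mE
  have := lt_pow8 J
  have h : 8 ^ (J + 1 + 1) = 8 * 8 ^ (J + 1) := by ring
  have h2 : 8 ^ (J + 1) = 8 * 8 ^ J := by ring
  omega

lemma mu_lower (J : ℕ) : (2 ^ mE J : ℝ≥0∞)⁻¹ * 2⁻¹ ≤
    mu (ball (mE J) 0 ∩ Gset ∩ (ball (mE (J + 1)) 0)ᶜ) := by
  set x := (2 ^ mE J : ℝ≥0∞)⁻¹ with hx
  set y := mu (ball (mE J) 0 ∩ Gset ∩ (ball (mE (J + 1)) 0)ᶜ) with hy
  have hx0 : x ≠ 0 := by rw [hx]; simp
  have hxt : x ≠ ⊤ := by rw [hx]; simp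
  have h1 : x ≤ y + (x * 4⁻¹ + x * 4⁻¹) := by
    have hsub : ball (mE J) 0 ⊆ (ball (mE J) 0 ∩ Gset ∩ (ball (mE (J + 1)) 0)ᶜ) ∪
        ((ball (mE J) 0 ∩ Gsetᶜ) ∪ ball (mE (J + 1)) 0) := by
      intro b hb
      by_cases h1 : b ∈ Gset
      · by_cases h2 : b ∈ ball (mE (J + 1)) 0
        · right; right; exact h2
        · left; exact ⟨⟨hb, h1⟩, h2⟩
      · right; left; exact ⟨hb, h1⟩
    calc x = mu (ball (mE J) 0) := (mu_ball _ _).symm
      _ ≤ _ := measure_mono hsub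
      _ ≤ y + (mu (ball (mE J) 0 ∩ Gsetᶜ) + mu (ball (mE (J + 1)) 0)) :=
          (measure_union_le _ _).trans (add_le_add le_rfl (measure_union_le _ _))
      _ ≤ y + (x * 4⁻¹ + x * 4⁻¹) := by
          gcongr
          · exact mu_bad J
          · rw [mu_ball]
            have h2 : (2 : ℝ≥0∞) ^ (mE J + 2) ≤ 2 ^ mE (J + 1) :=
              pow_le_pow_right₀ (by norm_num) (mE_succ_ge J)
            calc (2 ^ mE (J + 1) : ℝ≥0∞)⁻¹ ≤ (2 ^ (mE J + 2) : ℝ≥0∞)⁻¹ := ENNReal.inv_le_inv.2 h2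
              _ = x * 4⁻¹ := by
                rw [pow_add, ENNReal.mul_inv (by left; positivity) (by left; finiteness), hx]
                norm_num
  have h3 : x = x * 2⁻¹ + (x * 4⁻¹ + x * 4⁻¹) := by
    have : (4⁻¹ : ℝ≥0∞) + 4⁻¹ = 2⁻¹ := by
      have e1 : (4 : ℝ≥0∞) = 2 * 2 := by norm_num
      rw [e1, ENNReal.mul_inv (by norm_num) (by norm_num), ← mul_add, ENNReal.inv_two_add_inv_two,
        mul_one]
    rw [← mul_add, this, ← mul_add, ENNReal.inv_two_add_inv_two, mul_one]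
  have hfin : x * 4⁻¹ + x * 4⁻¹ ≠ ⊤ := by finiteness
  rw [h3] at h1
  nth_rewrite 1 [← h3] at h1
  exact (ENNReal.add_le_add_iff_right hfin).1 (by rw [← h3]; exact h1.trans (by rw [← h3]))

end Pool.Agent.Lib.MP_01c081_pr
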